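import Pool.Agent.H445Z.CubDefs

/-! Internal definitions and the statements of the steps of the proof. -/

namespace Pool.Agent.H445Z.Cub

open MeasureTheory Filter Finset

noncomputable section

/-! ### Abstract multiparameter filtrations on a finite set -/

/-- Commuting averaging operators `E t`, `t : ι → ℕ`; `rel t x y` means that `x, y` lie in the same
cell of shape `t`. -/
structure Filt (ι Ω : Type) [Fintype Ω] where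
  E : (ι → ℕ) → (Ω → ℝ) →ₗ[ℝ] (Ω → ℝ)
  rel : (ι → ℕ) → Ω → Ω → Prop
  pos : ∀ t f, (∀ x, 0 ≤ f x) → ∀ x, 0 ≤ E t f x
  one : ∀ t x, E t (fun _ => 1) x = 1
  comp : ∀ t t' f, E t (E t' f) = E (t ⊓ t') f
  meas : ∀ t f x y, rel t x y → E t f x = E t f y
  mul : ∀ t (f g : Ω → ℝ), (∀ x y, rel t x y → f x = f y) →
    ∀ x, E t (fun z => f z * g z) x = f x * E t g x
  anti : ∀ t t', t ≤ t' → ∀ x y, rel t' x y → rel t x y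
  total : ∀ t f, ∑ x, E t f x = ∑ x, f x
  diag : ∀ t f, (∀ x, 0 ≤ f x) → ∀ x, E t f x = 0 → f x = 0

/-- `f` is constant on the cells of shape `t`. -/
def Filt.Meas {ι Ω : Type} [Fintype Ω] (Φ : Filt ι Ω) (t : ι → ℕ) (f : Ω → ℝ) : Prop :=
  ∀ x y, Φ.rel t x y → f x = f y

/-- Multiparameter square function inequality for sign-symmetric (dyadic) martingale differences. -/
def S_bdg : Prop :=
  ∀ d k : ℕ, 1 ≤ k → ∃ C : ℝ, 0 < C ∧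
    ∀ (ι Ω I : Type) [Fintype ι] [Fintype Ω], Fintype.card ι = d →
    ∀ (σ : ι → ℕ → Equiv.Perm Ω) (T : Finset I) (b : I → ι → ℕ) (u : I → Ω → ℝ),
      Set.InjOn b T →
      (∀ j ∈ T, ∀ e a, b j e < a → ∀ x, u j (σ e a x) = u j x) →
      (∀ j ∈ T, ∀ e, 1 ≤ b j e → ∀ x, u j (σ e (b j e) x) = - u j x) →
      ∑ x, (∑ j ∈ T, u j x) ^ (2 * k) ≤ C * ∑ x, (∑ j ∈ T, u j x ^ 2) ^ k

/-- Level vectors: arbitrary in `[0, M]` on `S`, equal to `M` off `S`. -/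
def sbox {ι : Type} [Fintype ι] [DecidableEq ι] (S : Finset ι) (M : ℕ) : Finset (ι → ℕ) :=
  Fintype.piFinset fun e => if e ∈ S then range (M + 1) else {M}

/-- Moment bound for a family with small conditional expectations. -/
def S_moment : Prop :=
  ∀ (d q : ℕ) (ρ : ℝ), 2 ≤ q → 0 < ρ → ρ < 1 → ∃ C : ℝ, 0 < C ∧
    ∀ (ι Ω : Type) [Fintype ι] [DecidableEq ι] [Fintype Ω], Fintype.card ι = d →
    ∀ (Φ : Filt ι Ω) (S : Finset ι) (M : ℕ) (θ A : ℝ) (Z : (ι → ℕ) → Ω → ℝ),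
      0 < θ → 1 ≤ (M + 1) * θ → 0 ≤ A →
      (∀ s ∈ sbox S M, ∀ z, 0 ≤ Z s z) →
      (∀ s ∈ sbox S M, Φ.Meas s (Z s)) →
      (∀ s ∈ sbox S M, ∀ t ∈ sbox S M, t ≤ s → ∀ z,
        Φ.E t (Z s) z ≤ A * ∏ e ∈ S, (θ + 2 * ρ ^ (s e - t e))) →
      (∀ s ∈ sbox S M, ∑ z, Z s z ≤ A * θ ^ S.card * Fintype.card Ω) →
      ∑ z, (∑ s ∈ sbox S M, Z s z) ^ q ≤ (C * A * ((M + 1) * θ) ^ S.card) ^ q * Fintype.card Ω

/-- Lacunary coarsening depths. -/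
def LL (c j : ℕ) : ℕ := if j = 0 then 0 else c * 2 ^ j

/-- Cost of depth index `j`. -/
def aa (j : ℕ) : ℝ := if j = 0 then 1 else 2 ^ 2 ^ (j + 1)

/-- Shape `s` coarsened by the depth indices `y`. -/
def lam {ι : Type} (c : ℕ) (s y : ι → ℕ) : ι → ℕ := fun e => s e - LL c (y e)

/-- Depth index vectors: in `[0, J]` on `S`, zero off `S`. -/
def ybox {ι : Type} [Fintype ι] [DecidableEq ι] (S : Finset ι) (J : ℕ) : Finset (ι → ℕ) :=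
  Fintype.piFinset fun e => if e ∈ S then range (J + 1) else {0}

/-- Stopping-set decomposition of a majorant of the indicator `U`. -/
def S_stop : Prop :=
  ∀ d : ℕ, ∃ C : ℝ, 0 < C ∧
    ∀ (ι Ω : Type) [Fintype ι] [DecidableEq ι] [Fintype Ω], Fintype.card ι = d →
    ∀ (Φ : Filt ι Ω) (S : Finset ι) (c i : ℕ) (ρ : ℝ) (s : ι → ℕ) (U : Ω → ℝ),
      0 < ρ → ρ ≤ 1 → 1 / 2 ≤ ρ ^ (2 * c) → (∀ z, U z = 0 ∨ U z = 1) → Φ.Meas s U →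
      ∃ X : (ι → ℕ) → Ω → ℝ,
        (∀ z, U z = 1 → ∑ y ∈ ybox S (Nat.log 2 (i + 2)), X y z = 1) ∧
        (∑ z, ∑ y ∈ ybox S (Nat.log 2 (i + 2)), X y z ≤ (6 * 2 ^ i) ^ S.card * ∑ z, U z) ∧
        (∀ y, Φ.Meas (lam c s y) (X y)) ∧
        (∀ y z, |X y z| ≤ 2 ^ S.card) ∧
        (∀ y ∈ ybox S (Nat.log 2 (i + 2)), ∀ t : ι → ℕ, (∀ e ∈ S, t e ≤ s e) → ∀ z,
          Φ.E t (fun w => |X y w|) z ≤
            C * (∏ e ∈ S, aa (y e)) * ∏ e ∈ S, (((2 : ℝ) ^ i)⁻¹ + 2 * ρ ^ (s e - t e)))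

/-! ### The univariate building blocks -/

/-- Mesh size `2π / 2^a`. -/
def dl (a : ℕ) : ℝ := 2 * Real.pi / 2 ^ a

/-- Fourier coefficients of the periodic hat function of half-width `dl a`. -/
def coef (a k : ℕ) : ℝ := 4 * Real.sin (k * dl a / 2) ^ 2 / (2 ^ a * (k * dl a) ^ 2)

/-- The periodic hat function `max (0, 1 - dist (t, 2πℤ) / dl a)`. -/
def hat (a : ℕ) (t : ℝ) : ℝ := ((2 : ℝ) ^ a)⁻¹ + 2 * ∑' k : ℕ, coef a k * Real.cos (k * t)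

/-- Its derivative of order `r`. -/
def eta (r : ℝ) (a : ℕ) (t : ℝ) : ℝ :=
  ((2 : ℝ) ^ a)⁻¹ + 2 * ∑' k : ℕ, coef a k * (k : ℝ) ^ r * Real.cos (k * t + r * Real.pi / 2)

def S_etaBound : Prop :=
  ∀ r : ℝ, 0 < r → r ≤ 1 / 2 → ∃ C : ℝ, 0 < C ∧ ∀ a : ℕ,
    (∀ (u : ℝ) (j : ℤ), 0 ≤ u → u < dl a → 2 * |j| ≤ 2 ^ a →
      |eta r a (u - j * dl a)| ≤ C * 2 ^ (r * a) * (1 + |(j : ℝ)|) ^ (-1 - r)) ∧
    (∀ t t' : ℝ, |eta r a t - eta r a t'| ≤ C * 2 ^ (r * a) * (|t - t'| / dl a) ^ (1 / 4 : ℝ))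

def S_etaAlg : Prop :=
  ∀ r : ℝ, 0 < r → r ≤ 1 / 2 → ∀ a : ℕ,
    Continuous (eta r a) ∧ Function.Periodic (eta r a) (2 * Real.pi) ∧
    (∀ t : ℝ, ∑ c ∈ range (2 ^ a), eta r a (t - c * dl a) = 1) ∧
    (∀ c : ℝ, Continuous fun x : Circ => eta r a (rep x - c)) ∧
    (∀ c : ℝ, Continuous fun x : Circ => hat a (rep x - c)) ∧
    (∀ t : ℝ, ((range (2 ^ a)).filter fun c : ℕ => hat a (t - c * dl a) ≠ 0).card ≤ 2) ∧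
    (∀ c : ℝ, ∫ x : Circ, hat a (rep x - c) ∂AddCircle.haarAddCircle = ((2 : ℝ) ^ a)⁻¹)

def S_conv : Prop :=
  ∀ r : ℝ, 0 < r → r ≤ 1 / 2 → ∀ (a : ℕ) (c : ℝ) (x : Circ),
    Integrable (fun y : Circ => bern r (rep (x - y)) * eta r a (rep y - c))
      AddCircle.haarAddCircle ∧
    ∫ y : Circ, bern r (rep (x - y)) * eta r a (rep y - c) ∂AddCircle.haarAddCircle =
      hat a (rep x - c)

/-! ### The dyadic grid -/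

abbrev Gr (M : ℕ) : Type := ZMod (2 ^ M)

abbrev Mat (M : ℕ) : Type := Matrix (Gr M) (Gr M) ℝ

/-- Index of the dyadic interval of level `a` containing `x`. -/
def cell (M a : ℕ) (x : Gr M) : ℕ := x.val / 2 ^ (M - a)

/-- Averaging over dyadic intervals of level `a`. -/
def eM (M a : ℕ) : Mat M := fun x y =>
  if cell M a x = cell M a y then ((2 : ℝ) ^ (M - a))⁻¹ else 0

/-- Martingale difference of level `b` (zero unless `0 ≤ b ≤ M`). -/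
def dM (M : ℕ) (b : ℤ) : Mat M :=
  if b = 0 then eM M 0 else if 0 < b ∧ b ≤ M then eM M b.toNat - eM M (b.toNat - 1) else 0

/-- The sampled kernel: `y` enters through the left end of its level-`a` interval. -/
def kM (M a : ℕ) (η : ℝ → ℝ) (h : ℝ) : Mat M := fun x y =>
  ((2 : ℝ) ^ (M - a))⁻¹ * η (h + x.val * dl M - cell M a y * dl a)

def S_grid : Prop :=
  ∀ M : ℕ,
    (∀ a b, eM M a * eM M b = eM M (min a b)) ∧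
    (∀ a x, ∑ y, eM M a x y = 1) ∧
    (∀ a b, a ≤ b → ∀ x y, cell M b x = cell M b y → cell M a x = cell M a y) ∧
    (∀ a : ℕ, a ≤ M → ∑ τ ∈ Icc (-(M : ℤ)) M, dM M (a + τ) = 1) ∧
    (∃ σ : ℕ → Equiv.Perm (Gr M),
      (∀ (b : ℤ) (a : ℕ), b < a → ∀ x y, dM M b (σ a x) y = dM M b x y) ∧
      (∀ a : ℕ, 1 ≤ a → ∀ x y, dM M a (σ a x) y = - dM M a x y)) ∧
    (∀ (t : ℕ) (u x y : Gr M), eM M t x (y - u) ≤
      eM M t (x + u) y + eM M t (x + u + 2 ^ (M - t)) y + eM M t (x + u - 2 ^ (M - t)) y) ∧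
    (∀ a : ℕ, a ≤ M → ∀ g : ℕ → ℝ,
      ∑ y : Gr M, g (cell M a y) = 2 ^ (M - a) * ∑ c ∈ range (2 ^ a), g c)

/-- What is used about `eta r a`. -/
def EtaHyp (r C : ℝ) (a : ℕ) (η : ℝ → ℝ) : Prop :=
  Function.Periodic η (2 * Real.pi) ∧
  (∀ t : ℝ, ∑ c ∈ range (2 ^ a), η (t - c * dl a) = 1) ∧
  (∀ (u : ℝ) (j : ℤ), 0 ≤ u → u < dl a → 2 * |j| ≤ 2 ^ a →
    |η (u - j * dl a)| ≤ C * 2 ^ (r * a) * (1 + |(j : ℝ)|) ^ (-1 - r)) ∧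
  (∀ t t' : ℝ, |η t - η t'| ≤ C * 2 ^ (r * a) * (|t - t'| / dl a) ^ (1 / 4 : ℝ))

/-- Pointwise domination of `dM b * kM` by a positive kernel that respects conditional bounds. -/
def S_dom : Prop :=
  ∀ r C : ℝ, 0 < r → r ≤ 1 / 2 → 0 < C → ∃ C' : ℝ, 0 < C' ∧
    ∀ (M a : ℕ) (η : ℝ → ℝ) (h : ℝ), a ≤ M → EtaHyp r C a η → 0 ≤ h → h < dl M →
      ∀ b : ℤ, ∃ R : Mat M, (∀ x y, 0 ≤ R x y) ∧
        (∀ x y, |(dM M b * kM M a η h) x y| ≤ C' * 2 ^ (r * a) * R x y) ∧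
        (∀ x, ∑ y, R x y ≤ 1) ∧ eM M a * R = R ∧
        ∀ t : ℕ, ∃ P : Mat M, (∀ x y, 0 ≤ P x y) ∧ (∀ x, ∑ y, P x y ≤ 3) ∧
          ∀ x y, (eM M t * R) x y ≤ (P * eM M t) x y

/-- Operator norm on `ℓ²` with exponential gain. -/
def S_l2 : Prop :=
  ∀ r C : ℝ, 0 < r → r ≤ 1 / 2 → 0 < C → ∃ C' ρ : ℝ, 0 < C' ∧ 0 < ρ ∧ ρ < 1 ∧
    ∀ (M a : ℕ) (η : ℝ → ℝ) (h : ℝ), a ≤ M → EtaHyp r C a η → 0 ≤ h → h < dl M →
      ∀ (b : ℤ) (t : ℕ), t ≤ a → ∀ f : Gr M → ℝ,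
        ∑ x, ((dM M b * kM M a η h * eM M t).mulVec f x) ^ 2 ≤
          (C' * 2 ^ (r * a) * ρ ^ ((b - a).natAbs + (a - t))) ^ 2 * ∑ x, f x ^ 2

/-- The discrete fooling functions. -/
def S_disc : Prop :=
  ∀ (D k : ℕ) (r C : ℝ), 2 ≤ k → 0 < r → r ≤ 1 / 2 → 0 < C → ∃ (C' : ℝ) (c0 : ℕ), 0 < C' ∧
    ∀ (M : ℕ) (lv : Finset ℕ) (ℓ : ℕ → ℕ) (T : Finset (Fin (D + 1) → ℕ))
      (lev : (Fin (D + 1) → ℕ) → ℕ) (η : ℕ → ℝ → ℝ)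
      (U : (Fin (D + 1) → ℕ) → Finset (Fin (D + 1) → Gr M)),
      (∀ a, EtaHyp r C a (η a)) →
      (∀ s ∈ T, lev s ∈ lv ∧ ∑ e, s e = ℓ (lev s) ∧ (∀ e, s e ≤ M) ∧
        ∀ e, e ≠ Fin.last D → c0 * (lev s + 2) ≤ s e) →
      (∀ i ∈ lv, 2 ^ i ≤ M + 1) →
      (∀ s ∈ T, ∀ x y, (∀ e, cell M (s e) (x e) = cell M (s e) (y e)) → x ∈ U s → y ∈ U s) →
      (∀ s ∈ T, 2 * (6 * 2 ^ lev s) ^ D * (U s).card ≤ (2 ^ M) ^ (D + 1)) →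
      ∃ χ : (Fin (D + 1) → ℕ) → (Fin (D + 1) → Gr M) → ℝ,
        (∀ s ∈ T, ∀ x ∈ U s, χ s x = 1) ∧
        (∀ s ∈ T, 2 * ∑ x, χ s x ≤ (2 ^ M) ^ (D + 1)) ∧
        ∀ h : Fin (D + 1) → ℝ, (∀ e, 0 ≤ h e ∧ h e < dl M) →
          ∑ x : Fin (D + 1) → Gr M, |∑ s ∈ T, ∑ y : Fin (D + 1) → Gr M,
              (∏ e, kM M (s e) (η (s e)) (h e) (x e) (y e)) * (1 - χ s y)| ^ (k + 1) ≤
            (T.card + C' * √(∑ i ∈ lv, (2 : ℝ) ^ (2 * r * ℓ i) * ((M + 1) / 2 ^ i) ^ D)) ^ (k + 1) *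
              (2 ^ M) ^ (D + 1)

/-- Lower bound for the cubature error with explicit parameters. -/
def S_mid : Prop :=
  ∀ (D : ℕ) (p r : ℝ), 1 ≤ D → 1 ≤ p → 0 < r → r ≤ 1 / 2 → ∃ (C' : ℝ) (c0 : ℕ), 0 < C' ∧
    ∀ (m n n0 : ℕ) (lv : Finset ℕ), m ≤ 2 ^ n → c0 ≤ n → 2 * D * n0 ≤ n →
      (∀ i ∈ lv, c0 * (i + 2) ≤ n0 ∧ 2 ^ i ≤ n) →
      ENNReal.ofReal ((lv.card * (n0 : ℝ) ^ D / 2) / (lv.card * (n0 : ℝ) ^ D +
          C' * √(∑ i ∈ lv, (2 : ℝ) ^ (2 * r * (n + D * i)) * ((n : ℝ) / 2 ^ i) ^ D))) ≤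
        kappa (D + 1) m (sobolev (D + 1) r p)

/-- The final statement. -/
def S_final : Prop :=
  ∀ (d : ℕ) (p r : ℝ), 2 ≤ d → 2 < p → 1 / p < r →
    (r < 1 / 2 → ∃ c : ℝ, 0 < c ∧ ∀ᶠ m : ℕ in atTop,
      ENNReal.ofReal (c * (m : ℝ) ^ (-r) * Real.log m ^ (((d : ℝ) - 1) * (1 - r))) ≤
        kappa d m (sobolev d r p)) ∧
    (r = 1 / 2 → ∃ c : ℝ, 0 < c ∧ ∀ᶠ m : ℕ in atTop,
      ENNReal.ofReal (c * (m : ℝ) ^ (-r) * Real.log m ^ (((d : ℝ) - 1) / 2) *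
          √(Real.log (Real.log m))) ≤
        kappa d m (sobolev d r p))

end

end Pool.Agent.H445Z.Cub
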