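import Mathlib

/-! Mixed Sobolev classes on the torus and the optimal cubature error. -/

namespace Pool.Agent.H445Z.Cub

open MeasureTheory Filter

noncomputable section

instance twoPiPos : Fact (0 < 2 * Real.pi) := ⟨Real.two_pi_pos⟩

/-- The circle `ℝ / 2πℤ`. -/
abbrev Circ : Type := AddCircle (2 * Real.pi)

/-- The torus `𝕋^d`. -/
abbrev Torus (d : ℕ) : Type := Fin d → Circ

/-- Normalised Lebesgue measure `(2π)^{-d} dx` on the torus. -/
def torusMeasure (d : ℕ) : Measure (Torus d) := Measure.pi fun _ => AddCircle.haarAddCircle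

/-- The representative in `[0, 2π)` of a point of the circle. -/
def rep (x : Circ) : ℝ := (AddCircle.equivIco (2 * Real.pi) 0 x : ℝ)

/-- The univariate Bernoulli kernel `F_r(t) = 1 + 2 ∑_{k ≥ 1} k^{-r} cos (k t - r π / 2)`; the series
is the limit of its ordered finite sums (it converges for `t ∉ 2πℤ`). -/
def bern (r t : ℝ) : ℝ :=
  1 + 2 * limUnder atTop fun n : ℕ =>
    ∑ k ∈ Finset.Icc 1 n, (k : ℝ) ^ (-r) * Real.cos (k * t - r * Real.pi / 2)

/-- The multivariate kernel `F_r(x) = ∏_j F_r(x_j)`. -/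
def kernel {d : ℕ} (r : ℝ) (x : Torus d) : ℝ := ∏ j, bern r (rep (x j))

/-- The convolution `F_r * φ`. -/
def conv {d : ℕ} (r : ℝ) (φ : Torus d → ℝ) (x : Torus d) : ℝ :=
  ∫ y, kernel r (x - y) * φ y ∂torusMeasure d

/-- The class `W^r_p = {F_r * φ : ‖φ‖_p ≤ 1}`. -/
def sobolev (d : ℕ) (r p : ℝ) : Set (Torus d → ℝ) :=
  {f | ∃ φ : Torus d → ℝ, AEStronglyMeasurable φ (torusMeasure d) ∧
    eLpNorm φ (ENNReal.ofReal p) (torusMeasure d) ≤ 1 ∧ f = conv r φ}

/-- The optimal error `κ_m(F)` of cubature formulas with `m` nodes and real weights. -/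
def kappa (d m : ℕ) (F : Set (Torus d → ℝ)) : ENNReal :=
  ⨅ (ξ : Fin m → Torus d) (w : Fin m → ℝ), ⨆ f ∈ F,
    ENNReal.ofReal |∫ x, f x ∂torusMeasure d - ∑ j, w j * f (ξ j)|

end

end Pool.Agent.H445Z.Cub
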