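import Pool.Agent.H445Z.MHTop

open MvPolynomial

namespace Pool.Agent.H445Z.MH

section Det

variable {A B : Type*} [CommRing A] [CommRing B]

/-- explicit three by three determinant -/
def det3 (u v w : Fin 3 → A) : A :=
  u 0 * (v 1 * w 2 - v 2 * w 1) - u 1 * (v 0 * w 2 - v 2 * w 0) + u 2 * (v 0 * w 1 - v 1 * w 0)

lemma map_det3 (φ : A →+* B) (u v w : Fin 3 → A) :
    φ (det3 u v w) = det3 (fun j => φ (u j)) (fun j => φ (v j)) (fun j => φ (w j)) := by
  simp [det3]

lemma det3_lin (g : (Fin 3 → A) →ₗ[A] (Fin 3 → A)) (u v w : Fin 3 → A) :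
    det3 (g u) (g v) (g w) =
      det3 (g (Pi.single 0 1)) (g (Pi.single 1 1)) (g (Pi.single 2 1)) * det3 u v w := by
  have h : ∀ x : Fin 3 → A, g x = x 0 • g (Pi.single 0 1) + x 1 • g (Pi.single 1 1) +
      x 2 • g (Pi.single 2 1) := by
    intro x
    rw [← map_smul, ← map_smul, ← map_smul, ← map_add, ← map_add]
    congr 1
    funext i
    fin_cases i <;> simp
  rw [h u, h v, h w]
  simp only [det3, Pi.add_apply, Pi.smul_apply, smul_eq_mul]
  ring

lemma cramer (w0 w1 w2 w3 : Fin 3 → A) (j : Fin 3) :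
    det3 w0 w1 w2 * w3 j - det3 w0 w1 w3 * w2 j + det3 w0 w2 w3 * w1 j - det3 w1 w2 w3 * w0 j = 0 := by
  fin_cases j <;> simp [det3] <;> ring

/-- the bracket of two binary forms evaluated at three points -/
def E (yi zi yj zj : Fin 3 → A) : A :=
  det3 (fun s => yi s * yj s) (fun s => zi s * yj s) (fun s => yi s * zj s)

lemma pluecker (ya za yb zb yc zc ye ze : Fin 3 → A) :
    E ya za yc zc * E yb zb ye ze - E ya za ye ze * E yb zb yc zc =
      E ya za yb zb * E yc zc ye ze := by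
  simp only [E, det3]
  ring

lemma det3_triple (yi zi yj zj yk : Fin 3 → A) :
    det3 (fun s => yi s * yj s * yk s) (fun s => zi s * yj s * yk s) (fun s => yi s * zj s * yk s) =
      yk 0 * yk 1 * yk 2 * E yi zi yj zj := by
  simp only [E, det3]
  ring

lemma det3_shift (w00 w10 w01 w11 : Fin 3 → A) (s t : A) :
    det3 (fun j => w00 j + s * w10 j + t * w01 j + s * t * w11 j) (fun j => w10 j + t * w11 j)
      (fun j => w01 j + s * w11 j) =
    det3 w00 w10 w01 + s * det3 w00 w10 w11 + t * det3 w00 w11 w01 - s * t * det3 w11 w10 w01 := by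
  simp only [det3]
  ring

end Det

section Field

variable {k : Type*} [Field k]

lemma surj_of_det3 (u v w : Fin 3 → k) (h : det3 u v w ≠ 0) (x : Fin 3 → k) :
    ∃ a b c : k, a • u + b • v + c • w = x := by
  refine ⟨det3 x v w / det3 u v w, det3 u x w / det3 u v w, det3 u v x / det3 u v w, ?_⟩
  funext j
  simp only [Pi.add_apply, Pi.smul_apply, smul_eq_mul]
  field_simp
  fin_cases j <;> simp [det3] <;> ring

lemma minor_ne_zero (w00 w10 w01 w11 : Fin 3 → k)
    (h : ∀ x : Fin 3 → k, ∃ a b c e : k, x = a • w00 + b • w10 + c • w01 + e • w11) :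
    ¬ (det3 w00 w10 w01 = 0 ∧ det3 w00 w10 w11 = 0 ∧ det3 w00 w11 w01 = 0 ∧
      det3 w11 w10 w01 = 0) := by
  rintro ⟨h1, h2, h3, h4⟩
  obtain ⟨a0, b0, c0, e0, hx0⟩ := h (Pi.single 0 1)
  obtain ⟨a1, b1, c1, e1, hx1⟩ := h (Pi.single 1 1)
  obtain ⟨a2, b2, c2, e2, hx2⟩ := h (Pi.single 2 1)
  have h5 : det3 (Pi.single 0 1 : Fin 3 → k) (Pi.single 1 1) (Pi.single 2 1) = 1 := by
    simp [det3]
  rw [hx0, hx1, hx2] at h5
  have h6 : det3 (a0 • w00 + b0 • w10 + c0 • w01 + e0 • w11)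
      (a1 • w00 + b1 • w10 + c1 • w01 + e1 • w11) (a2 • w00 + b2 • w10 + c2 • w01 + e2 • w11) =
      det3 ![a0, b0, c0] ![a1, b1, c1] ![a2, b2, c2] * det3 w00 w10 w01 +
      det3 ![a0, b0, e0] ![a1, b1, e1] ![a2, b2, e2] * det3 w00 w10 w11 +
      det3 ![a0, e0, c0] ![a1, e1, c1] ![a2, e2, c2] * det3 w00 w11 w01 +
      det3 ![e0, b0, c0] ![e1, b1, c1] ![e2, b2, c2] * det3 w11 w10 w01 := by
    simp [det3]
    ring
  rw [h6, h1, h2, h3, h4] at h5
  simp at h5

/-- a nonzero bilinear expression as a polynomial -/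
lemma quad_ne_zero {ι : Type*} (i j : ι) (hij : i ≠ j) (a b c e : k)
    (h : ¬ (a = 0 ∧ b = 0 ∧ c = 0 ∧ e = 0)) :
    (C a + X i * C b + X j * C c - X i * X j * C e : MvPolynomial ι k) ≠ 0 := by
  classical
  intro h0
  apply h
  have h1 := congrArg (eval (0 : ι → k)) h0
  have h2 := congrArg (eval (Pi.single i 1 : ι → k)) h0
  have h3 := congrArg (eval (Pi.single j 1 : ι → k)) h0
  have h4 := congrArg (eval (Pi.single i 1 + Pi.single j 1 : ι → k)) h0
  simp [hij, hij.symm] at h1 h2 h3 h4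
  refine ⟨h1, ?_, ?_, ?_⟩
  · linear_combination h2 - h1
  · linear_combination h3 - h1
  · linear_combination h2 + h3 - h1 - h4

lemma dep_of_minors {ι : Type*} (u v : ι → k) (h : ∀ x y, u x * v y - u y * v x = 0) :
    ∃ α β : k, (α ≠ 0 ∨ β ≠ 0) ∧ ∀ x, α * u x + β * v x = 0 := by
  by_cases hu : ∀ x, u x = 0
  · exact ⟨1, 0, Or.inl one_ne_zero, fun x => by simp [hu]⟩
  · push Not at hu
    obtain ⟨y, hy⟩ := hu
    exact ⟨- v y, u y, Or.inr hy, fun x => by linear_combination - h x y⟩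

/-- openness of the existence of a good root -/
lemma root_open {R : Type*} [CommRing R] [IsAlgClosed k] (p g : Polynomial R) (hp : p.Monic)
    (φ0 : R →+* k) (t0 : k) (h1 : p.eval₂ φ0 t0 = 0) (h2 : g.eval₂ φ0 t0 ≠ 0) :
    ∃ F : R, φ0 F ≠ 0 ∧ ∀ φ : R →+* k, φ F ≠ 0 →
      ∃ t, p.eval₂ φ t = 0 ∧ g.eval₂ φ t ≠ 0 := by
  have key : ∀ φ : R →+* k, ((g ^ p.natDegree) %ₘ p).map φ = 0 ↔
      p.map φ ∣ (g.map φ) ^ p.natDegree := by
    intro φ
    rw [Polynomial.map_modByMonic φ hp, Polynomial.modByMonic_eq_zero_iff_dvd (hp.map φ),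
      Polynomial.map_pow]
  have h3 : ((g ^ p.natDegree) %ₘ p).map φ0 ≠ 0 := by
    intro h
    obtain ⟨q, hq⟩ := (key φ0).1 h
    have h4 := congrArg (Polynomial.eval t0) hq
    rw [Polynomial.eval_pow, Polynomial.eval_mul, Polynomial.eval_map, Polynomial.eval_map, h1,
      zero_mul] at h4
    exact h2 (pow_eq_zero_iff'.1 h4).1
  obtain ⟨i, hi⟩ : ∃ i, (((g ^ p.natDegree) %ₘ p).map φ0).coeff i ≠ 0 := by
    by_contra hcon
    push Not at hcon
    exact h3 (Polynomial.ext hcon)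
  refine ⟨((g ^ p.natDegree) %ₘ p).coeff i, by rwa [Polynomial.coeff_map] at hi, ?_⟩
  intro φ hφ
  by_contra hcon
  push Not at hcon
  apply hφ
  rw [← Polynomial.coeff_map, (key φ).2, Polynomial.coeff_zero]
  have hs := (IsAlgClosed.splits (p.map φ)).eq_prod_roots_of_monic (hp.map φ)
  have hc : (p.map φ).roots.card = p.natDegree := by
    rw [← (IsAlgClosed.splits (p.map φ)).natDegree_eq_card_roots, hp.natDegree_map]
  rw [hs, ← hc, ← Multiset.prod_replicate, ← Multiset.map_const']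
  apply Multiset.prod_dvd_prod_of_dvd
  intro t ht
  rw [Polynomial.dvd_iff_isRoot, Polynomial.IsRoot, Polynomial.eval_map]
  apply hcon
  have := Polynomial.isRoot_of_mem_roots ht
  rwa [Polynomial.IsRoot, Polynomial.eval_map] at this

end Field

end Pool.Agent.H445Z.MH
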