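import Mathlib

/-!
Multigraded Hilbert schemes of points in a product of `r` copies of projective `n`-space:
the space of `k`-points with its Zariski topology, and the component `Slip`.
-/

open MvPolynomial

namespace Pool.Agent.H445Z.MH

variable (k : Type*) [Field k]

/-- The total coordinate ring `S = k[x_{i,j} : i < r, j ≤ n]`. -/
abbrev S (n r : ℕ) : Type _ := MvPolynomial (Fin r × Fin (n + 1)) k

/-- The grading by `ℕ^r` with `deg x_{i,j} = e_i`. -/
def deg (n r : ℕ) : Fin r × Fin (n + 1) → (Fin r → ℕ) := fun p => Pi.single p.1 1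

/-- The graded piece `S_a`. -/
abbrev piece (n r : ℕ) (a : Fin r → ℕ) : Submodule k (S k n r) :=
  weightedHomogeneousSubmodule k (deg n r) a

/-- The Hilbert function `H_r(a) = min(d, ∏ binom(n + a_i, n))` of `d` general points. -/
def H (n d : ℕ) {r : ℕ} (a : Fin r → ℕ) : ℕ := min d (∏ i, (n + a i).choose n)

/-- The `k`-points of the multigraded Hilbert scheme: the `ℕ^r`-homogeneous ideals `I` of `S` with
`dim_k (S/I)_a = dim_k S_a / (I ∩ S_a) = H_r(a)` for all `a`. -/
def Hilb (n d r : ℕ) : Type _ :=
  {I : Ideal (S k n r) // (∀ f ∈ I, ∀ a, weightedHomogeneousComponent (deg n r) a f ∈ I) ∧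
    ∀ a, Module.finrank k
      (piece k n r a ⧸ (I.restrictScalars k).comap (piece k n r a).subtype) = H n d a}

/-- Index set of the matrix (Stiefel) coordinates: a monomial and a row index. -/
abbrev Var (n d r : ℕ) : Type := ((Fin r × Fin (n + 1)) →₀ ℕ) × Fin d

variable {k}

/-- The linear map `S → k^d` sending the monomial `x^m` to the column `c (m, ·)`. -/
noncomputable def mat {n d r : ℕ} (c : Var n d r → k) : S k n r →ₗ[k] (Fin d → k) :=
  (basisMonomials (Fin r × Fin (n + 1)) k).constr k fun m j => c (m, j)

/-- `c` is a system of matrix coordinates of `I`: for each degree `a`, the subspace `I ∩ S_a` is the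
kernel of the `d × dim S_a` matrix whose columns are the `c (m, ·)` with `deg m = a`. -/
def Presents {n d r : ℕ} (c : Var n d r → k) (I : Ideal (S k n r)) : Prop :=
  ∀ a, ∀ f ∈ piece k n r a, (f ∈ I ↔ mat c f = 0)

variable (k)

/-- Points of the Hilbert scheme together with matrix coordinates. -/
def Framed (n d r : ℕ) : Type _ :=
  {p : Hilb k n d r × (Var n d r → k) // Presents p.2 p.1.1}

/-- The Zariski topology in the matrix coordinates. -/
noncomputable instance (n d r : ℕ) : TopologicalSpace (Framed k n d r) :=
  TopologicalSpace.induced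
    (fun p => (pointToPoint p.1.2 : PrimeSpectrum (MvPolynomial (Var n d r) k))) inferInstance

/-- The Zariski topology on the `k`-points of the Hilbert scheme, the one induced from the products
of Grassmannians: a set is closed iff it is cut out by polynomial equations in the matrix
coordinates. -/
noncomputable instance (n d r : ℕ) : TopologicalSpace (Hilb k n d r) :=
  TopologicalSpace.coinduced (fun p : Framed k n d r => p.1.1) inferInstance

/-- The multihomogeneous ideal `I_Γ` of a set `Γ` of points of `ℙ^n × ⋯ × ℙ^n`: it is generated by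
the multihomogeneous forms vanishing on `Γ`. -/
noncomputable def idealOfPoints {n r : ℕ}
    (Γ : Set (Fin r → Projectivization k (Fin (n + 1) → k))) : Ideal (S k n r) :=
  Ideal.span {f | (∃ a, f ∈ piece k n r a) ∧
    ∀ γ ∈ Γ, eval (fun p : Fin r × Fin (n + 1) => (γ p.1).rep p.2) f = 0}

/-- `Slip`: the closure of the set of points of the Hilbert scheme that are ideals of `d` distinct
points of `ℙ^n × ⋯ × ℙ^n`. -/
def Slip (n d r : ℕ) : Set (Hilb k n d r) :=
  closure {I | ∃ Γ : Finset (Fin r → Projectivization k (Fin (n + 1) → k)),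
    Γ.card = d ∧ I.1 = idealOfPoints k (Γ : Set _)}

end Pool.Agent.H445Z.MH
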