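import Pool.Agent.H445Z.MHAlg

open MvPolynomial

namespace Pool.Agent.H445Z.MH

variable {k : Type*} [Field k] {r : ℕ}

/-- unit vector -/
def e (i : Fin r) : Fin r → ℕ := Pi.single i 1

lemma X_mem (i : Fin r) (c : Fin 2) : (X (i, c) : S k 1 r) ∈ piece k 1 r (e i) :=
  isWeightedHomogeneous_X k (deg 1 r) (i, c)

lemma mul_mem {n : ℕ} {a b : Fin r → ℕ} {f g : S k n r} (hf : f ∈ piece k n r a)
    (hg : g ∈ piece k n r b) : f * g ∈ piece k n r (a + b) :=
  IsWeightedHomogeneous.mul hf hg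

lemma mem_congr {n : ℕ} {a b : Fin r → ℕ} {f : S k n r} (hf : f ∈ piece k n r a) (h : a = b) :
    f ∈ piece k n r b := h ▸ hf

/-- linear form in the `i`-th group of variables -/
noncomputable def lin (i : Fin r) (α β : k) : S k 1 r := α • X (i, 0) + β • X (i, 1)

lemma lin_mem (i : Fin r) (α β : k) : lin i α β ∈ piece k 1 r (e i) :=
  Submodule.add_mem _ (Submodule.smul_mem _ _ (X_mem i 0)) (Submodule.smul_mem _ _ (X_mem i 1))

lemma weight_apply (m : (Fin r × Fin (1 + 1)) →₀ ℕ) (i : Fin r) :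
    Finsupp.weight (deg 1 r) m i = m (i, 0) + m (i, 1) := by
  rw [Finsupp.weight_eq_sum, Finset.sum_apply, Fintype.sum_prod_type, Finset.sum_eq_single i]
  · simp [deg, Fin.sum_univ_two]
  · intro j _ hj
    simp [deg, hj.symm]
  · simp

lemma split_piece (a : Fin r → ℕ) (i : Fin r) (f : S k 1 r) (hf : f ∈ piece k 1 r (a + e i)) :
    ∃ f0 ∈ piece k 1 r a, ∃ f1 ∈ piece k 1 r a, f = f0 * X (i, 0) + f1 * X (i, 1) := by
  have hf' : IsWeightedHomogeneous (deg 1 r) f (a + e i) := hf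
  induction hf' using IsWeightedHomogeneous.induction_on with
  | zero => exact ⟨0, Submodule.zero_mem _, 0, Submodule.zero_mem _, by simp⟩
  | add p q hp hq h1 h2 =>
    obtain ⟨p0, hp0, p1, hp1, rfl⟩ := h1 hp
    obtain ⟨q0, hq0, q1, hq1, rfl⟩ := h2 hq
    exact ⟨p0 + q0, Submodule.add_mem _ hp0 hq0, p1 + q1, Submodule.add_mem _ hp1 hq1, by ring⟩
  | monomial m s hm =>
    have key : ∀ c : Fin 2, m (i, c) ≠ 0 → ∃ g ∈ piece k 1 r a,
        (monomial m s : S k 1 r) = g * X (i, c) := by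
      intro c hc
      have h1 : m = (m - Finsupp.single (i, c) 1) + Finsupp.single (i, c) 1 := by
        rw [tsub_add_cancel_of_le]
        rw [Finsupp.single_le_iff]
        omega
      refine ⟨monomial (m - Finsupp.single (i, c) 1) s, ?_, ?_⟩
      · apply isWeightedHomogeneous_monomial
        rw [h1, map_add, Finsupp.weight_single, one_smul] at hm
        exact add_right_cancel hm
      · rw [X, monomial_mul, mul_one, ← h1]
    have h2 := weight_apply m i
    rw [hm] at h2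
    simp only [Pi.add_apply, e, Pi.single_eq_same] at h2
    by_cases h0 : m (i, 0) = 0
    · obtain ⟨g, hg, h⟩ := key 1 (by omega)
      exact ⟨0, Submodule.zero_mem _, g, hg, by rw [h]; simp⟩
    · obtain ⟨g, hg, h⟩ := key 0 h0
      exact ⟨g, hg, 0, Submodule.zero_mem _, by rw [h]; simp⟩

lemma piece_zero (f : S k 1 r) (hf : f ∈ piece k 1 r 0) : ∃ c : k, f = C c := by
  have hf' : IsWeightedHomogeneous (deg 1 r) f 0 := hf
  induction hf' using IsWeightedHomogeneous.induction_on with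
  | zero => exact ⟨0, by simp⟩
  | add p q hp hq h1 h2 =>
    obtain ⟨a, rfl⟩ := h1 hp
    obtain ⟨b, rfl⟩ := h2 hq
    exact ⟨a + b, by simp⟩
  | monomial m s hm =>
    have : m = 0 := by
      ext ⟨i, c⟩
      have h2 := weight_apply m i
      rw [hm] at h2
      simp only [Pi.zero_apply] at h2
      fin_cases c
      · simp only [Finsupp.coe_zero, Pi.zero_apply]
        change m (i, 0) = 0
        omega
      · simp only [Finsupp.coe_zero, Pi.zero_apply]
        change m (i, 1) = 0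
        omega
    exact ⟨s, by rw [this]; rfl⟩

lemma piece_e (i : Fin r) (f : S k 1 r) (hf : f ∈ piece k 1 r (e i)) :
    ∃ α β : k, f = lin i α β := by
  obtain ⟨f0, h0, f1, h1, rfl⟩ := split_piece 0 i f (by rwa [zero_add])
  obtain ⟨α, rfl⟩ := piece_zero f0 h0
  obtain ⟨β, rfl⟩ := piece_zero f1 h1
  exact ⟨α, β, by simp [lin, smul_eq_C_mul]⟩

/-- a nonzero linear form in the `l`-th variables kills all degrees in `D` -/
def Kill (I : Ideal (S k 1 r)) (l : Fin r) (D : Set (Fin r → ℕ)) : Prop :=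
  ∃ α β : k, (α ≠ 0 ∨ β ≠ 0) ∧ ∀ a ∈ D, ∀ g ∈ piece k 1 r a, g * lin l α β ∈ I

lemma mat_lin {d : ℕ} (c : Var 1 d r → k) (g : S k 1 r) (l : Fin r) (α β : k) (s : Fin d) :
    mat c (g * lin l α β) s = α * mat c (g * X (l, 0)) s + β * mat c (g * X (l, 1)) s := by
  simp [lin, mul_add]

theorem isClosed_kill {d : ℕ} (hd : 0 < d) (l : Fin r) (D : Set (Fin r → ℕ)) :
    IsClosed {I : Hilb k 1 d r | Kill I.1 l D} := by
  rw [← isOpen_compl_iff, isOpen_iff_forall_mem_open]
  intro I hI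
  obtain ⟨c, hc⟩ := exists_presents hd I
  let ι := {g : S k 1 r // ∃ a ∈ D, g ∈ piece k 1 r a} × Fin d
  have h1 : ∃ x y : ι, mat c (x.1.1 * X (l, 0)) x.2 * mat c (y.1.1 * X (l, 1)) y.2 -
      mat c (y.1.1 * X (l, 0)) y.2 * mat c (x.1.1 * X (l, 1)) x.2 ≠ 0 := by
    by_contra hcon
    push Not at hcon
    obtain ⟨α, β, h2, h3⟩ := dep_of_minors (fun x : ι => mat c (x.1.1 * X (l, 0)) x.2)
      (fun x : ι => mat c (x.1.1 * X (l, 1)) x.2) hcon
    refine hI ⟨α, β, h2, fun a ha g hg => ?_⟩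
    rw [hc _ _ (mul_mem hg (lin_mem l α β))]
    funext s
    rw [mat_lin]
    exact h3 (⟨g, a, ha, hg⟩, s)
  obtain ⟨x, y, hxy⟩ := h1
  refine ⟨_, ?_, isOpen_exists (P x.2 (x.1.1 * X (l, 0)) * P y.2 (y.1.1 * X (l, 1)) -
    P y.2 (y.1.1 * X (l, 0)) * P x.2 (x.1.1 * X (l, 1))), c, hc, by simpa [eval_P] using hxy⟩
  rintro I' ⟨c', hc', hF⟩ ⟨α, β, h2, h3⟩
  apply hF
  simp only [map_sub, map_mul, eval_P]
  have h4 : ∀ x : ι, α * mat c' (x.1.1 * X (l, 0)) x.2 + β * mat c' (x.1.1 * X (l, 1)) x.2 = 0 := by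
    rintro ⟨⟨g, a, ha, hg⟩, s⟩
    rw [← mat_lin, (hc' _ _ (mul_mem hg (lin_mem l α β))).1 (h3 a ha g hg)]
    rfl
  rcases h2 with h2 | h2
  · apply mul_left_cancel₀ h2
    linear_combination mat c' (y.1.1 * X (l, 1)) y.2 * h4 x - mat c' (x.1.1 * X (l, 1)) x.2 * h4 y
  · apply mul_left_cancel₀ h2
    linear_combination mat c' (x.1.1 * X (l, 0)) x.2 * h4 y - mat c' (y.1.1 * X (l, 0)) y.2 * h4 x

section Cubic

variable {A B : Type*} [CommRing A] [CommRing B] (l : Fin r) (val : S k 1 r → Fin 3 → A)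

/-- coefficients of the cubic -/
noncomputable def lam : A :=
  det3 (val (X (l, 0) ^ 3)) (val (X (l, 0) ^ 2 * X (l, 1))) (val (X (l, 0) * X (l, 1) ^ 2))
/-- coefficients of the cubic -/
noncomputable def mu : A :=
  - det3 (val (X (l, 0) ^ 3)) (val (X (l, 0) ^ 2 * X (l, 1))) (val (X (l, 1) ^ 3))
/-- coefficients of the cubic -/
noncomputable def nu : A :=
  det3 (val (X (l, 0) ^ 3)) (val (X (l, 0) * X (l, 1) ^ 2)) (val (X (l, 1) ^ 3))
/-- coefficients of the cubic -/
noncomputable def rho : A :=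
  - det3 (val (X (l, 0) ^ 2 * X (l, 1))) (val (X (l, 0) * X (l, 1) ^ 2)) (val (X (l, 1) ^ 3))

/-- the image of the cofactor times `m` -/
noncomputable def Qv (t : A) (m : S k 1 r) : Fin 3 → A := fun j =>
  lam l val ^ 2 * val (m * X (l, 1) ^ 2) j +
    lam l val * (mu l val + t) * val (m * (X (l, 1) * X (l, 0))) j +
    (lam l val * nu l val + mu l val * t + t ^ 2) * val (m * X (l, 0) ^ 2) j

/-- the test function -/
noncomputable def gg (t : A) (m m' : Fin 3 → S k 1 r) : A :=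
  lam l val * (det3 (Qv l val t (m 0)) (Qv l val t (m 1)) (Qv l val t (m 2)) *
    det3 (Qv l val t (m' 0)) (Qv l val t (m' 1)) (Qv l val t (m' 2)))

lemma map_lam (φ : A →+* B) : φ (lam l val) = lam l (fun f j => φ (val f j)) := map_det3 φ _ _ _
lemma map_mu (φ : A →+* B) : φ (mu l val) = mu l (fun f j => φ (val f j)) := by
  rw [mu, map_neg, map_det3]; rfl
lemma map_nu (φ : A →+* B) : φ (nu l val) = nu l (fun f j => φ (val f j)) := map_det3 φ _ _ _
lemma map_rho (φ : A →+* B) : φ (rho l val) = rho l (fun f j => φ (val f j)) := by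
  rw [rho, map_neg, map_det3]; rfl
lemma map_Qv (φ : A →+* B) (t : A) (m : S k 1 r) :
    (fun j => φ (Qv l val t m j)) = Qv l (fun f j => φ (val f j)) (φ t) m := by
  funext j
  simp only [Qv, map_add, map_mul, map_pow, map_lam, map_mu, map_nu]
lemma map_gg (φ : A →+* B) (t : A) (m m' : Fin 3 → S k 1 r) :
    φ (gg l val t m m') = gg l (fun f j => φ (val f j)) (φ t) m m' := by
  simp only [gg, map_mul, map_det3, map_lam, map_Qv]

end Cubic

theorem kill_of_root (I : Hilb k 1 3 r) (c : Var 1 3 r → k) (hc : Presents c I.1) (l : Fin r)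
    (a a' : Fin r → ℕ) (ha : H 1 3 (a + e l) = 3) (ha' : H 1 3 (a' + e l) = 3)
    (m m' : Fin 3 → S k 1 r) (hm : ∀ s, m s ∈ piece k 1 r (a + e l))
    (hm' : ∀ s, m' s ∈ piece k 1 r (a' + e l)) (t : k)
    (hp : t ^ 3 + mu l (mat c) * t ^ 2 + lam l (mat c) * nu l (mat c) * t +
      lam l (mat c) ^ 2 * rho l (mat c) = 0)
    (hg : gg l (mat c) t m m' ≠ 0) : Kill I.1 l {a, a'} := by
  set L := lam l (mat c) with hL
  set M := mu l (mat c) with hM
  set N := nu l (mat c) with hN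
  set R := rho l (mat c) with hR
  have hL0 : L ≠ 0 := left_ne_zero_of_mul hg
  have h0 := X_mem (k := k) l 0
  have h1 := X_mem (k := k) l 1
  let q : S k 1 r := L • X (l, 1) ^ 3 + M • (X (l, 0) * X (l, 1) ^ 2) +
    N • (X (l, 0) ^ 2 * X (l, 1)) + R • X (l, 0) ^ 3
  have hq : q ∈ I.1 := by
    have hq1 : q ∈ piece k 1 r (e l + e l + e l) := by
      refine Submodule.add_mem _ (Submodule.add_mem _ (Submodule.add_mem _ ?_ ?_) ?_) ?_ <;>
        apply Submodule.smul_mem
      · convert mul_mem (mul_mem h1 h1) h1 using 1; ring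
      · convert mul_mem (mul_mem h0 h1) h1 using 1; ring
      · convert mul_mem (mul_mem h0 h0) h1 using 1; ring
      · convert mul_mem (mul_mem h0 h0) h0 using 1; ring
    rw [hc _ _ hq1]
    funext j
    simp only [q, map_add, map_smul, Pi.add_apply, Pi.smul_apply, smul_eq_mul, Pi.zero_apply]
    have := cramer (mat c (X (l, 0) ^ 3)) (mat c (X (l, 0) ^ 2 * X (l, 1)))
      (mat c (X (l, 0) * X (l, 1) ^ 2)) (mat c (X (l, 1) ^ 3)) j
    simp only [hL, hM, hN, hR, lam, mu, nu, rho]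
    linear_combination this
  let Q : S k 1 r := L ^ 2 • X (l, 1) ^ 2 + (L * (M + t)) • (X (l, 1) * X (l, 0)) +
    (L * N + M * t + t ^ 2) • X (l, 0) ^ 2
  have hQ : Q ∈ piece k 1 r (e l + e l) := by
    refine Submodule.add_mem _ (Submodule.add_mem _ ?_ ?_) ?_ <;> apply Submodule.smul_mem
    · convert mul_mem h1 h1 using 1; ring
    · exact mul_mem h1 h0
    · convert mul_mem h0 h0 using 1; ring
  have hfac : lin l (-t) L * Q = L ^ 2 • q := by
    simp only [lin, Q, q, smul_eq_C_mul, map_mul, map_add, map_pow, map_neg]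
    have h5 : (C (t ^ 3 + M * t ^ 2 + L * N * t + L ^ 2 * R) : S k 1 r) = 0 := by rw [hp, map_zero]
    simp only [map_mul, map_add, map_pow] at h5
    linear_combination (- X (l, 0) ^ 3) * h5
  have hQv : ∀ f, mat c (f * Q) = Qv l (mat c) t f := by
    intro f
    funext j
    simp only [Q, Qv, mul_add, mul_smul_comm, map_add, map_smul, Pi.add_apply, Pi.smul_apply,
      smul_eq_mul, hL, hM, hN]
  have key : ∀ (b : Fin r → ℕ) (_ : H 1 3 (b + e l) = 3) (u : Fin 3 → S k 1 r)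
      (_ : ∀ s, u s ∈ piece k 1 r (b + e l))
      (_ : det3 (Qv l (mat c) t (u 0)) (Qv l (mat c) t (u 1)) (Qv l (mat c) t (u 2)) ≠ 0),
      ∀ g ∈ piece k 1 r b, g * lin l (-t) L ∈ I.1 := by
    intro b hb u hu hdet g hg
    have h2 := (surj_iff (by norm_num) I (b + e l) hb ((mat c).comp (LinearMap.mulRight k Q)) (by
      intro f hf hfI
      exact (hc _ _ (mul_mem hf hQ)).1 (I.1.mul_mem_right _ hfI))).1 (by
      intro w
      obtain ⟨x, y, z, hw⟩ := surj_of_det3 _ _ _ hdet w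
      refine ⟨x • u 0 + y • u 1 + z • u 2, Submodule.add_mem _ (Submodule.add_mem _
        (Submodule.smul_mem _ _ (hu 0)) (Submodule.smul_mem _ _ (hu 1)))
        (Submodule.smul_mem _ _ (hu 2)), ?_⟩
      rw [← hw]
      simp only [map_add, map_smul, LinearMap.comp_apply, LinearMap.mulRight_apply, hQv])
    apply h2 _ (mul_mem hg (lin_mem l _ _))
    simp only [LinearMap.comp_apply, LinearMap.mulRight_apply]
    rw [← hc _ _ (mul_mem (mul_mem hg (lin_mem l _ _)) hQ), mul_assoc, hfac]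
    apply I.1.mul_mem_left
    rw [smul_eq_C_mul]
    exact I.1.mul_mem_left _ hq
  have hg2 := right_ne_zero_of_mul hg
  refine ⟨-t, L, Or.inr hL0, ?_⟩
  rintro b (rfl | rfl)
  · exact key _ ha m hm (left_ne_zero_of_mul hg2)
  · exact key _ ha' m' hm' (right_ne_zero_of_mul hg2)

theorem kill_nhd [IsAlgClosed k] (c0 : Var 1 3 r → k) (l : Fin r)
    (a a' : Fin r → ℕ) (ha : H 1 3 (a + e l) = 3) (ha' : H 1 3 (a' + e l) = 3)
    (m m' : Fin 3 → S k 1 r) (hm : ∀ s, m s ∈ piece k 1 r (a + e l))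
    (hm' : ∀ s, m' s ∈ piece k 1 r (a' + e l))
    (hp : rho l (mat c0) = 0) (hg : gg l (mat c0) 0 m m' ≠ 0) :
    ∃ F : MvPolynomial (Var 1 3 r) k, eval c0 F ≠ 0 ∧ ∀ (I : Hilb k 1 3 r) c, Presents c I.1 →
      eval c F ≠ 0 → Kill I.1 l {a, a'} := by
  let val : S k 1 r → Fin 3 → MvPolynomial (Var 1 3 r) k := fun f j => P j f
  let p : Polynomial (MvPolynomial (Var 1 3 r) k) := Polynomial.X ^ 3 +
    Polynomial.C (mu l val) * Polynomial.X ^ 2 + Polynomial.C (lam l val * nu l val) * Polynomial.X +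
    Polynomial.C (lam l val ^ 2 * rho l val)
  let g : Polynomial (MvPolynomial (Var 1 3 r) k) :=
    gg l (fun f j => Polynomial.C (val f j)) Polynomial.X m m'
  have hval : ∀ c : Var 1 3 r → k, (fun f j => eval c (val f j)) = fun f => mat c f := by
    intro c
    funext f j
    exact eval_P c f j
  have hpe : ∀ (c : Var 1 3 r → k) t, p.eval₂ (eval c) t = t ^ 3 + mu l (mat c) * t ^ 2 +
      lam l (mat c) * nu l (mat c) * t + lam l (mat c) ^ 2 * rho l (mat c) := by
    intro c t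
    simp only [p, Polynomial.eval₂_add, Polynomial.eval₂_mul, Polynomial.eval₂_C,
      Polynomial.eval₂_X_pow, Polynomial.eval₂_X]
    simp only [map_mul, map_pow, map_lam, map_mu, map_nu, map_rho, hval]
  have hge : ∀ (c : Var 1 3 r → k) t, g.eval₂ (eval c) t = gg l (mat c) t m m' := by
    intro c t
    have := map_gg l (fun f j => Polynomial.C (val f j)) (Polynomial.eval₂RingHom (eval c) t)
      Polynomial.X m m'
    simp only [Polynomial.coe_eval₂RingHom, Polynomial.eval₂_C, Polynomial.eval₂_X, hval] at this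
    exact this
  obtain ⟨F, hF, hF'⟩ := root_open p g (by simp only [p]; monicity!) (eval c0) 0
    (by rw [hpe, hp]; ring) (by rwa [hge])
  refine ⟨F, hF, fun I c hc hcF => ?_⟩
  obtain ⟨t, h1, h2⟩ := hF' (eval c) hcF
  rw [hpe] at h1
  rw [hge] at h2
  exact kill_of_root I c hc l a a' ha ha' m m' hm hm' t h1 h2

end Pool.Agent.H445Z.MH
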