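import Pool.Agent.H445Z.MHPoint

open MvPolynomial

namespace Pool.Agent.H445Z.MH

variable {k : Type*} [Field k]

lemma cubic_vals (ω : k) (l : Fin 6) :
    lam l (mat (c0 ω)) = ω ^ 2 - ω ∧ nu l (mat (c0 ω)) = ω ^ 3 - ω ^ 2 ∧
      rho l (mat (c0 ω)) = 0 := by
  have h0 := X_mem (k := k) l 0
  have h1 := X_mem (k := k) l 1
  have hJ : supp (e l + e l + e l) l = true := by simp [supp, e]
  have hl := lab_one (supp (e l + e l + e l)) l hJ (fun j hj => by simp [supp, e, hj])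
  have m0 : (X (l, 0) ^ 3 : S k 1 6) ∈ piece k 1 6 (e l + e l + e l) := by
    convert mul_mem (mul_mem h0 h0) h0 using 1; ring
  have m1 : (X (l, 0) ^ 2 * X (l, 1) : S k 1 6) ∈ piece k 1 6 (e l + e l + e l) := by
    convert mul_mem (mul_mem h0 h0) h1 using 1; ring
  have m2 : (X (l, 0) * X (l, 1) ^ 2 : S k 1 6) ∈ piece k 1 6 (e l + e l + e l) := by
    convert mul_mem (mul_mem h0 h1) h1 using 1; ring
  have m3 : (X (l, 1) ^ 3 : S k 1 6) ∈ piece k 1 6 (e l + e l + e l) := by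
    convert mul_mem (mul_mem h1 h1) h1 using 1; ring
  simp only [lam, nu, rho, det3, mat_c0 ω _ _ m0, mat_c0 ω _ _ m1, mat_c0 ω _ _ m2,
    mat_c0 ω _ _ m3, map_mul, map_pow, eval_X, pt_zero ω _ _ _ hJ, pt_one ω _ _ _ hJ, hl]
  refine ⟨?_, ?_, ?_⟩ <;> simp

/-- the three standard monomials -/
noncomputable def std (i j l : Fin 6) : Fin 3 → S k 1 6 :=
  ![X (i, 0) * X (j, 0) * X (l, 0), X (i, 1) * X (j, 0) * X (l, 0), X (i, 0) * X (j, 1) * X (l, 0)]

lemma std_mem (i j l : Fin 6) (s : Fin 3) : std i j l s ∈ piece k 1 6 (e i + e j + e l) := by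
  fin_cases s <;> exact mul_mem (mul_mem (X_mem _ _) (X_mem _ _)) (X_mem _ _)

/-- the combinatorial condition on a triple -/
def Good (i j l : Fin 6) : Prop :=
  supp (e i + e j + e l + (e l + e l)) i = true ∧ supp (e i + e j + e l + (e l + e l)) j = true ∧
  supp (e i + e j + e l + (e l + e l)) l = true ∧
  (∀ s, lab (supp (e i + e j + e l + (e l + e l))) s i = ![0, 1, 0] s) ∧
  (∀ s, lab (supp (e i + e j + e l + (e l + e l))) s j = ![0, 0, 1] s) ∧
  (∀ s, lab (supp (e i + e j + e l + (e l + e l))) s l = 0)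

instance (i j l : Fin 6) : Decidable (Good i j l) := by unfold Good; infer_instance

lemma det_Qv (ω : k) (i j l : Fin 6) (h : Good i j l) :
    det3 (Qv l (mat (c0 ω)) 0 (std i j l 0)) (Qv l (mat (c0 ω)) 0 (std i j l 1))
      (Qv l (mat (c0 ω)) 0 (std i j l 2)) = ((ω ^ 2 - ω) * (ω ^ 3 - ω ^ 2)) ^ 3 := by
  obtain ⟨hi, hj, hl, li, lj, ll⟩ := h
  obtain ⟨v1, v2, -⟩ := cubic_vals ω l
  have h0 := X_mem (k := k) l 0
  have h1 := X_mem (k := k) l 1
  have hQ : ∀ s t, Qv l (mat (c0 ω)) 0 (std i j l s) t = ((ω ^ 2 - ω) * (ω ^ 3 - ω ^ 2)) *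
      eval (pt ω (supp (e i + e j + e l + (e l + e l))) t) (std i j l s) := by
    intro s t
    have m0 : (std i j l s * X (l, 1) ^ 2 : S k 1 6) ∈
        piece k 1 6 (e i + e j + e l + (e l + e l)) := by
      rw [pow_two]; exact mul_mem (std_mem i j l s) (mul_mem h1 h1)
    have m1 : (std i j l s * (X (l, 1) * X (l, 0)) : S k 1 6) ∈
        piece k 1 6 (e i + e j + e l + (e l + e l)) := mul_mem (std_mem i j l s) (mul_mem h1 h0)
    have m2 : (std i j l s * X (l, 0) ^ 2 : S k 1 6) ∈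
        piece k 1 6 (e i + e j + e l + (e l + e l)) := by
      rw [pow_two]; exact mul_mem (std_mem i j l s) (mul_mem h0 h0)
    simp only [Qv, mat_c0 ω _ _ m0, mat_c0 ω _ _ m1, mat_c0 ω _ _ m2, map_mul, map_pow, eval_X,
      pt_zero ω _ _ _ hl, pt_one ω _ _ _ hl, ll, v1, v2]
    simp
  simp only [det3, hQ]
  simp only [std, Matrix.cons_val_zero, Matrix.cons_val_one, Matrix.cons_val,
    map_mul, eval_X, pt_zero ω _ _ _ hl, pt_zero ω _ _ _ hi, pt_zero ω _ _ _ hj,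
    pt_one ω _ _ _ hi, pt_one ω _ _ _ hj, li, lj]
  simp
  ring

theorem kill_nhd0 [IsAlgClosed k] (ω : k) (h0 : ω ≠ 0) (h1 : ω ≠ 1) (l i j i' j' : Fin 6)
    (g : Good i j l) (g' : Good i' j' l) (ha : H 1 3 (e i + e j + e l) = 3)
    (ha' : H 1 3 (e i' + e j' + e l) = 3) :
    ∃ U : Set (Hilb k 1 3 6), IsOpen U ∧ pt0 ω h0 h1 ∈ U ∧
      ∀ I ∈ U, Kill I.1 l {e i + e j, e i' + e j'} := by
  obtain ⟨F, hF, hF'⟩ := kill_nhd (c0 ω) l (e i + e j) (e i' + e j') ha ha' (std i j l)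
    (std i' j' l) (std_mem i j l) (std_mem i' j' l) (cubic_vals ω l).2.2 (by
      rw [gg, det_Qv ω i j l g, det_Qv ω i' j' l g', (cubic_vals ω l).1]
      have h2 : ω ^ 2 - ω ≠ 0 := by
        rw [show ω ^ 2 - ω = ω * (ω - 1) by ring]
        exact mul_ne_zero h0 (sub_ne_zero.2 h1)
      have h3 : ω ^ 3 - ω ^ 2 ≠ 0 := by
        rw [show ω ^ 3 - ω ^ 2 = ω * (ω ^ 2 - ω) by ring]
        exact mul_ne_zero h0 h2
      exact mul_ne_zero h2 (mul_ne_zero (pow_ne_zero _ (mul_ne_zero h2 h3))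
        (pow_ne_zero _ (mul_ne_zero h2 h3))))
  exact ⟨_, isOpen_exists F, ⟨c0 ω, presents_c0 ω, hF⟩, fun I ⟨c, hc, h⟩ => hF' I c hc h⟩

theorem main (k : Type*) [Field k] [IsAlgClosed k] :
    ∃ Z ∈ irreducibleComponents (Hilb k 1 3 6), Disjoint Z (Slip k 1 3 6) := by
  classical
  obtain ⟨ω, hω⟩ := Infinite.exists_notMem_finset ({0, 1} : Finset k)
  simp only [Finset.mem_insert, Finset.mem_singleton, not_or] at hω
  obtain ⟨h0, h1⟩ := hω
  obtain ⟨U5, o5, p5, k5⟩ := kill_nhd0 ω h0 h1 5 0 4 1 4 (by decide) (by decide) (by decide)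
    (by decide)
  obtain ⟨U4, o4, p4, k4⟩ := kill_nhd0 ω h0 h1 4 2 5 3 5 (by decide) (by decide) (by decide)
    (by decide)
  obtain ⟨U3, o3, p3, k3⟩ := kill_nhd0 ω h0 h1 3 0 2 0 2 (by decide) (by decide) (by decide)
    (by decide)
  obtain ⟨U2, o2, p2, k2⟩ := kill_nhd0 ω h0 h1 2 1 3 1 3 (by decide) (by decide) (by decide)
    (by decide)
  refine ⟨irreducibleComponent (pt0 ω h0 h1),
    irreducibleComponent_mem_irreducibleComponents _, ?_⟩
  have hcl : IsClosed {I : Hilb k 1 3 6 | FF I.1} :=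
    (isClosed_kill (by norm_num) _ _).inter ((isClosed_kill (by norm_num) _ _).inter
      ((isClosed_kill (by norm_num) _ _).inter (isClosed_kill (by norm_num) _ _)))
  have hsub := subset_closure_inter_of_isPreirreducible_of_isOpen
    (isIrreducible_irreducibleComponent (x := pt0 ω h0 h1)).isPreirreducible
    (o5.inter (o4.inter (o3.inter o2))) ⟨_, mem_irreducibleComponent, p5, p4, p3, p2⟩
  rw [Set.disjoint_left]
  intro I hI
  apply not_mem_slip I
  refine (hcl.closure_subset_iff.2 ?_) (hsub hI)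
  rintro J ⟨-, j5, j4, j3, j2⟩
  exact ⟨k5 J j5, k4 J j4, k3 J j3, k2 J j2⟩

end Pool.Agent.H445Z.MH
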