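import Pool.Agent.H445Z.MHSlip

open MvPolynomial

namespace Pool.Agent.H445Z.MH

/-- the chosen pair -/
def ch (J : Fin 6 → Bool) : Fin 6 × Fin 6 :=
  if J 0 then (0, if J 1 then 1 else if J 2 then 2 else if J 3 then 3 else if J 4 then 4 else 5)
  else if J 1 then (1, if J 3 then 3 else if J 2 then 2 else if J 4 then 4 else 5)
  else if J 2 then (2, if J 3 then 3 else if J 5 then 5 else 4)
  else if J 3 then (3, if J 5 then 5 else 4)
  else (4, 5)

/-- number of elements -/
def cnt (J : Fin 6 → Bool) : ℕ :=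
  (J 0).toNat + (J 1).toNat + (J 2).toNat + (J 3).toNat + (J 4).toNat + (J 5).toNat

/-- labels of the coordinates of the three points -/
def lab (J : Fin 6 → Bool) (s : Fin 3) (i : Fin 6) : Fin 3 :=
  if cnt J = 1 then s else if (s = 1 ∧ i = (ch J).1) ∨ (s = 2 ∧ i = (ch J).2) then 1 else 0

lemma lab_consistent : ∀ J J' : Fin 6 → Bool, (∀ i, J i = true → J' i = true) →
    ∀ s', ∃ s, ∀ i, J i = true → lab J s i = lab J' s' i := by
  decide +kernel

lemma lab_two : ∀ (J : Fin 6 → Bool) (i j : Fin 6), i ≠ j → J i = true → J j = true →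
    J (ch J).1 = true ∧ J (ch J).2 = true ∧ (ch J).1 ≠ (ch J).2 ∧
    (∀ s, lab J s (ch J).1 = ![0, 1, 0] s) ∧ (∀ s, lab J s (ch J).2 = ![0, 0, 1] s) := by
  decide +kernel

lemma lab_one : ∀ (J : Fin 6 → Bool) (i : Fin 6), J i = true → (∀ j, j ≠ i → J j = false) →
    ∀ s, lab J s i = s := by
  decide +kernel

variable {k : Type*} [Field k]

/-- support of a degree -/
def supp (a : Fin 6 → ℕ) : Fin 6 → Bool := fun i => decide (a i ≠ 0)

/-- the three points -/
def pt (ω : k) (J : Fin 6 → Bool) (s : Fin 3) : Fin 6 × Fin (1 + 1) → k := fun p =>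
  if J p.1 then (if p.2 = 0 then 1 else ![0, 1, ω] (lab J s p.1)) else 0

lemma pt_zero (ω : k) (J : Fin 6 → Bool) (s : Fin 3) (i : Fin 6) (h : J i = true) :
    pt ω J s (i, 0) = 1 := by simp [pt, h]

lemma pt_one (ω : k) (J : Fin 6 → Bool) (s : Fin 3) (i : Fin 6) (h : J i = true) :
    pt ω J s (i, 1) = ![0, 1, ω] (lab J s i) := by simp [pt, h]

lemma eval_congr_piece {r : ℕ} (b : Fin r → ℕ) (f : S k 1 r) (hf : f ∈ piece k 1 r b)
    (x x' : Fin r × Fin (1 + 1) → k) (h : ∀ p : Fin r × Fin (1 + 1), b p.1 ≠ 0 → x p = x' p) :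
    eval x f = eval x' f := by
  have hf' : IsWeightedHomogeneous (deg 1 r) f b := hf
  induction hf' using IsWeightedHomogeneous.induction_on with
  | zero => simp
  | add p q hp hq h1 h2 => rw [map_add, map_add, h1 hp, h2 hq]
  | monomial m s hm =>
    rw [eval_monomial, eval_monomial]
    congr 1
    refine Finsupp.prod_congr fun p hp => ?_
    rw [h p]
    have h2 := weight_apply m p.1
    rw [hm] at h2
    have h3 := Finsupp.mem_support_iff.1 hp
    obtain ⟨i, c⟩ := p
    fin_cases c
    · change m (i, 0) ≠ 0 at h3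
      simp only at h2 ⊢
      omega
    · change m (i, 1) ≠ 0 at h3
      simp only at h2 ⊢
      omega

lemma sub_add_e {r : ℕ} (b : Fin r → ℕ) (i : Fin r) (hi : b i ≠ 0) : b - e i + e i = b := by
  funext j
  by_cases h : j = i
  · subst h
    simp only [e, Pi.add_apply, Pi.sub_apply, Pi.single_eq_same]
    omega
  · simp [e, h]

lemma eval_zero_piece {r : ℕ} (b : Fin r → ℕ) (f : S k 1 r) (hf : f ∈ piece k 1 r b) (i : Fin r)
    (hi : b i ≠ 0) (x : Fin r × Fin (1 + 1) → k) (h0 : x (i, 0) = 0) (h1 : x (i, 1) = 0) :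
    eval x f = 0 := by
  obtain ⟨f0, -, f1, -, rfl⟩ := split_piece (b - e i) i f (by rwa [sub_add_e b i hi])
  simp [h0, h1]

/-- the special ideal -/
noncomputable def I0 (ω : k) : Ideal (S k 1 6) :=
  Ideal.span {f | ∃ a, f ∈ piece k 1 6 a ∧ ∀ s, eval (pt ω (supp a) s) f = 0}

lemma mem_I0 (ω : k) (a : Fin 6 → ℕ) (f : S k 1 6) (hf : f ∈ piece k 1 6 a) :
    f ∈ I0 ω ↔ ∀ s, eval (pt ω (supp a) s) f = 0 := by
  refine ⟨fun h s => ?_, fun h => Ideal.subset_span ⟨a, hf, h⟩⟩
  have h1 : I0 ω ≤ RingHom.ker (eval (pt ω (supp a) s)) := by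
    rw [I0, Ideal.span_le]
    rintro g ⟨b, hg, hb⟩
    change eval _ g = 0
    by_cases h2 : ∀ i, supp b i = true → supp a i = true
    · obtain ⟨s', hs'⟩ := lab_consistent _ _ h2 s
      rw [← hb s']
      apply eval_congr_piece b g hg
      intro p hp
      have h3 : supp b p.1 = true := by simpa [supp] using hp
      simp only [pt, h3, h2 _ h3, hs' _ h3]
    · push Not at h2
      obtain ⟨i, hi, hi'⟩ := h2
      exact eval_zero_piece b g hg i (by simpa [supp] using hi) _ (by simp [pt, hi'])
        (by simp [pt, hi'])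
  exact h1 h

/-- the base monomial -/
noncomputable def base {r : ℕ} (a : Fin r → ℕ) : S k 1 r := ∏ l, X (l, 0) ^ a l

lemma base_mem {r : ℕ} (a : Fin r → ℕ) : base a ∈ piece k 1 r a := by
  have h := IsWeightedHomogeneous.prod (R := k) (w := deg 1 r) Finset.univ
    (fun l => (X (l, 0) : S k 1 r) ^ a l) (fun l => a l • e l)
    (fun l _ => IsWeightedHomogeneous.pow (X_mem l 0) (a l))
  refine mem_congr h ?_
  funext j
  simp [e, Finset.sum_apply, Pi.single_apply]

lemma eval_base (ω : k) (J : Fin 6 → Bool) (s : Fin 3) (b : Fin 6 → ℕ)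
    (h : ∀ l, b l ≠ 0 → J l = true) : eval (pt ω J s) (base b) = 1 := by
  rw [base, map_prod]
  refine Finset.prod_eq_one fun l _ => ?_
  by_cases hl : b l = 0
  · simp [hl]
  · simp [pt_zero ω J s l (h l hl)]

lemma range_top (pts : Fin 3 → (Fin 6 × Fin (1 + 1) → k)) (a : Fin 6 → ℕ) (u v w : S k 1 6)
    (hu : u ∈ piece k 1 6 a) (hv : v ∈ piece k 1 6 a) (hw : w ∈ piece k 1 6 a)
    (h : det3 (ev3 pts u) (ev3 pts v) (ev3 pts w) ≠ 0) :
    Module.finrank k (LinearMap.range ((ev3 pts).comp (piece k 1 6 a).subtype)) = 3 := by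
  have : LinearMap.range ((ev3 pts).comp (piece k 1 6 a).subtype) = ⊤ := by
    rw [eq_top_iff]
    intro x _
    obtain ⟨α, β, γ, hx⟩ := surj_of_det3 _ _ _ h x
    refine ⟨α • ⟨u, hu⟩ + β • ⟨v, hv⟩ + γ • ⟨w, hw⟩, ?_⟩
    rw [← hx]
    simp
  rw [this]
  simp

lemma H_eq (a : Fin 6 → ℕ) : H 1 3 a = min 3 (∏ i, (1 + a i)) := by
  simp [H]

lemma finrank_range (ω : k) (h0 : ω ≠ 0) (h1 : ω ≠ 1) (a : Fin 6 → ℕ) :
    Module.finrank k (LinearMap.range ((ev3 (pt ω (supp a))).comp (piece k 1 6 a).subtype)) =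
      H 1 3 a := by
  have hs : ∀ l, a l ≠ 0 → supp a l = true := fun l hl => by simpa [supp] using hl
  have hs' : ∀ l, supp a l = true → a l ≠ 0 := fun l hl => by simpa [supp] using hl
  have hsub : ∀ (b : Fin 6 → ℕ) l, (a - b) l ≠ 0 → supp a l = true := by
    intro b l hl
    apply hs
    simp only [Pi.sub_apply] at hl
    omega
  by_cases h2 : ∃ i j, i ≠ j ∧ a i ≠ 0 ∧ a j ≠ 0
  · obtain ⟨i, j, hij, hi, hj⟩ := h2
    obtain ⟨c1, c2, c3, c4, c5⟩ := lab_two (supp a) i j hij (hs i hi) (hs j hj)
    have hH : H 1 3 a = 3 := by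
      rw [H_eq]
      apply min_eq_left
      have h3 : ∏ x ∈ ({i, j} : Finset (Fin 6)), (1 + a x) ≤ ∏ x, (1 + a x) :=
        Finset.prod_le_prod_of_subset_of_one_le' (Finset.subset_univ _) fun _ _ _ => by omega
      rw [Finset.prod_pair hij] at h3
      have : 1 ≤ a i := Nat.one_le_iff_ne_zero.2 hi
      have : 1 ≤ a j := Nat.one_le_iff_ne_zero.2 hj
      nlinarith
    rw [hH]
    refine range_top _ a (base a) (base (a - e (ch (supp a)).1) * X ((ch (supp a)).1, 1))
      (base (a - e (ch (supp a)).2) * X ((ch (supp a)).2, 1)) (base_mem a)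
      (mem_congr (mul_mem (base_mem _) (X_mem _ 1)) (sub_add_e a _ (hs' _ c1)))
      (mem_congr (mul_mem (base_mem _) (X_mem _ 1)) (sub_add_e a _ (hs' _ c2))) ?_
    simp only [det3, ev3_apply, map_mul, eval_X, eval_base ω _ _ _ hs, eval_base ω _ _ _ (hsub _),
      pt_one ω _ _ _ c1, pt_one ω _ _ _ c2, c4, c5]
    simp
  · push Not at h2
    by_cases h3 : ∃ i, a i ≠ 0
    · obtain ⟨i, hi⟩ := h3
      have h4 : ∀ j, j ≠ i → a j = 0 := fun j hj => h2 i j hj.symm hi
      have hl := lab_one (supp a) i (hs i hi) (fun j hj => by simp [supp, h4 j hj])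
      have hH : H 1 3 a = min 3 (1 + a i) := by
        rw [H_eq, Finset.prod_eq_single i]
        · intro j _ hj
          simp [h4 j hj]
        · simp
      rw [hH]
      by_cases h5 : a i = 1
      · have h6 : a = e i := by
          funext j
          by_cases hj : j = i
          · subst hj; simp [e, h5]
          · simp [e, hj, h4 j hj]
        have h7 : LinearMap.range ((ev3 (pt ω (supp a))).comp (piece k 1 6 a).subtype) =
            Submodule.span k (Set.range ![(fun _ => 1 : Fin 3 → k), ![0, 1, ω]]) := by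
          have e0 : ev3 (pt ω (supp a)) (X (i, 0)) = fun _ => 1 := by
            funext s
            rw [ev3_apply, eval_X, pt_zero ω _ _ _ (hs i hi)]
          have e1 : ev3 (pt ω (supp a)) (X (i, 1)) = ![0, 1, ω] := by
            funext s
            rw [ev3_apply, eval_X, pt_one ω _ _ _ (hs i hi), hl]
          apply le_antisymm
          · rintro _ ⟨⟨f, hf⟩, rfl⟩
            obtain ⟨α, β, rfl⟩ := piece_e i f (mem_congr hf h6)
            simp only [LinearMap.comp_apply, Submodule.subtype_apply, lin, map_add, map_smul, e0,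
              e1]
            exact Submodule.add_mem _ (Submodule.smul_mem _ _ (Submodule.subset_span ⟨0, rfl⟩))
              (Submodule.smul_mem _ _ (Submodule.subset_span ⟨1, rfl⟩))
          · rw [Submodule.span_le]
            rintro _ ⟨x, rfl⟩
            fin_cases x
            · exact ⟨⟨X (i, 0), mem_congr (X_mem i 0) h6.symm⟩, e0⟩
            · exact ⟨⟨X (i, 1), mem_congr (X_mem i 1) h6.symm⟩, e1⟩
        rw [h7, finrank_span_eq_card, h5]
        · simp
        · rw [LinearIndependent.pair_iff]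
          intro s t hst
          have a0 := congrFun hst 0
          have a1 := congrFun hst 1
          simp at a0 a1
          exact ⟨a0, by linear_combination a1 - a0⟩
      · have h6 : (a - e i) i ≠ 0 := by
          simp only [e, Pi.sub_apply, Pi.single_eq_same]
          omega
        rw [min_eq_left (by omega)]
        refine range_top _ a (base a) (base (a - e i) * X (i, 1))
          (base (a - e i - e i) * X (i, 1) * X (i, 1)) (base_mem a)
          (mem_congr (mul_mem (base_mem _) (X_mem _ 1)) (sub_add_e a _ hi))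
          (mem_congr (mul_mem (mul_mem (base_mem _) (X_mem _ 1)) (X_mem _ 1))
            (by rw [sub_add_e _ _ h6, sub_add_e _ _ hi])) ?_
        have hsub2 : ∀ l, (a - e i - e i) l ≠ 0 → supp a l = true := by
          intro l hl
          apply hs
          simp only [Pi.sub_apply] at hl
          omega
        simp only [det3, ev3_apply, map_mul, eval_X, eval_base ω _ _ _ hs,
          eval_base ω _ _ _ (hsub _), eval_base ω _ _ _ hsub2, pt_one ω _ _ _ (hs i hi), hl]
        simp
        intro h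
        exact h1 (mul_right_cancel₀ h0 (by linear_combination h))
    · push Not at h3
      have h4 : a = 0 := funext h3
      have h7 : LinearMap.range ((ev3 (pt ω (supp a))).comp (piece k 1 6 a).subtype) =
          Submodule.span k {(fun _ => 1 : Fin 3 → k)} := by
        apply le_antisymm
        · rintro _ ⟨⟨f, hf⟩, rfl⟩
          obtain ⟨α, rfl⟩ := piece_zero f (mem_congr hf h4)
          refine Submodule.mem_span_singleton.2 ⟨α, ?_⟩
          funext s
          simp [ev3_apply]
        · rw [Submodule.span_le]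
          rintro _ rfl
          refine ⟨⟨1, mem_congr (isWeightedHomogeneous_one k (deg 1 6)) h4.symm⟩, ?_⟩
          funext s
          simp [ev3_apply]
      rw [h7, finrank_span_singleton, H_eq, h4]
      · simp
      · intro h
        exact one_ne_zero (congrFun h 0)

attribute [local instance] MvPolynomial.weightedGradedAlgebra in
/-- the special point -/
noncomputable def pt0 (ω : k) (h0 : ω ≠ 0) (h1 : ω ≠ 1) : Hilb k 1 3 6 :=
  ⟨I0 ω, fun f hf a => weightedHomogeneousComponent_mem_of_mem k (deg 1 6)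
    (Ideal.homogeneous_span _ _ (by rintro x ⟨b, hb, -⟩; exact ⟨b, hb⟩)) hf a, fun a => by
    have h : ((I0 ω).restrictScalars k).comap (piece k 1 6 a).subtype =
        LinearMap.ker ((ev3 (pt ω (supp a))).comp (piece k 1 6 a).subtype) := by
      ext ⟨f, hf⟩
      change f ∈ I0 ω ↔ _
      rw [mem_I0 ω a f hf, LinearMap.mem_ker, funext_iff]
      rfl
    rw [h, (LinearMap.quotKerEquivRange _).finrank_eq, finrank_range ω h0 h1]⟩

/-- coordinates of the special point -/
noncomputable def c0 (ω : k) : Var 1 3 6 → k := ofMaps fun a => ev3 (pt ω (supp a))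

lemma mat_c0 (ω : k) (a : Fin 6 → ℕ) (f : S k 1 6) (hf : f ∈ piece k 1 6 a) (s : Fin 3) :
    mat (c0 ω) f s = eval (pt ω (supp a) s) f := by
  rw [c0, mat_ofMaps _ a f hf]
  rfl

lemma presents_c0 (ω : k) : Presents (c0 ω) (I0 ω) := by
  intro a f hf
  rw [mem_I0 ω a f hf, funext_iff]
  simp only [mat_c0 ω a f hf, Pi.zero_apply]

end Pool.Agent.H445Z.MH
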