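import Pool.Agent.H445Z.MHKill

open MvPolynomial

namespace Pool.Agent.H445Z.MH

variable {k : Type*} [Field k] {r : ℕ}

section Id

variable {A B : Type*} [CommRing A] [CommRing B] (val : S k 1 r → Fin 3 → A)
  (y z : Fin r → S k 1 r)

/-- a Pluecker coordinate in degree `e i + e j + e l` -/
noncomputable def PP (i j l : Fin r) : A :=
  det3 (val (y i * y j * y l)) (val (z i * y j * y l)) (val (y i * z j * y l))

lemma map_PP (φ : A →+* B) (i j l : Fin r) :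
    φ (PP val y z i j l) = PP (fun f s => φ (val f s)) y z i j l := map_det3 φ _ _ _

end Id

/-- the equation holding on `Slip` -/
noncomputable def Idn {A : Type*} [CommRing A] (val : S k 1 6 → Fin 3 → A)
    (y z : Fin 6 → S k 1 6) : A :=
  PP val y z 1 3 2 * PP val y z 0 2 3 *
    (PP val y z 1 4 5 * PP val y z 2 5 4 - PP val y z 1 5 4 * PP val y z 2 4 5) *
    (PP val y z 0 4 5 * PP val y z 3 5 4 - PP val y z 0 5 4 * PP val y z 3 4 5) -
  PP val y z 1 2 3 * PP val y z 0 3 2 *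
    (PP val y z 1 4 5 * PP val y z 3 5 4 - PP val y z 1 5 4 * PP val y z 3 4 5) *
    (PP val y z 0 4 5 * PP val y z 2 5 4 - PP val y z 0 5 4 * PP val y z 2 4 5)

lemma map_Idn {A B : Type*} [CommRing A] [CommRing B] (φ : A →+* B) (val : S k 1 6 → Fin 3 → A)
    (y z : Fin 6 → S k 1 6) : φ (Idn val y z) = Idn (fun f s => φ (val f s)) y z := by
  simp only [Idn, map_sub, map_mul, map_PP]

lemma exists_factor {V W : Type*} [AddCommGroup V] [Module k V] [AddCommGroup W]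
    [Module k W] (φ ψ : V →ₗ[k] W) (h : LinearMap.ker φ ≤ LinearMap.ker ψ) :
    ∃ g : W →ₗ[k] W, ∀ v, g (φ v) = ψ v := by
  obtain ⟨g, hg⟩ := LinearMap.exists_extend
    (((LinearMap.ker φ).liftQ ψ h).comp φ.quotKerEquivRange.symm.toLinearMap)
  refine ⟨g, fun v => ?_⟩
  have h1 : g (φ v) = _ := congrArg (fun L => L ⟨φ v, LinearMap.mem_range_self φ v⟩) hg
  rw [h1]
  have h2 : φ.quotKerEquivRange.symm ⟨φ v, LinearMap.mem_range_self φ v⟩ =
      Submodule.Quotient.mk v := by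
    rw [LinearEquiv.symm_apply_eq]
    ext
    simp
  simp [h2]

/-- evaluation at three points -/
noncomputable def ev3 (pt : Fin 3 → (Fin r × Fin (1 + 1) → k)) : S k 1 r →ₗ[k] (Fin 3 → k) :=
  LinearMap.pi fun s => (aeval (pt s)).toLinearMap

lemma ev3_apply (pt : Fin 3 → (Fin r × Fin (1 + 1) → k)) (f : S k 1 r) (s : Fin 3) :
    ev3 pt f s = eval (pt s) f := rfl

theorem Idn_eq_zero (I : Ideal (S k 1 6)) (c : Var 1 3 6 → k) (hc : Presents c I)
    (pt : Fin 3 → (Fin 6 × Fin (1 + 1) → k))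
    (hI : ∀ a, ∀ f ∈ piece k 1 6 a, (∀ s, eval (pt s) f = 0) → f ∈ I)
    (y z : Fin 6 → S k 1 6) (hy : ∀ i, y i ∈ piece k 1 6 (e i))
    (hz : ∀ i, z i ∈ piece k 1 6 (e i)) : Idn (mat c) y z = 0 := by
  have h1 : ∀ a, ∃ g : (Fin 3 → k) →ₗ[k] (Fin 3 → k), ∀ f ∈ piece k 1 6 a,
      g (ev3 pt f) = mat c f := by
    intro a
    obtain ⟨g, hg⟩ := exists_factor ((ev3 pt).comp (piece k 1 6 a).subtype)
      ((mat c).comp (piece k 1 6 a).subtype) (by
        rintro ⟨f, hf⟩ h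
        exact (hc a f hf).1 (hI a f hf fun s => congrFun h s))
    exact ⟨g, fun f hf => hg ⟨f, hf⟩⟩
  choose g hg using h1
  let δ : (Fin 6 → ℕ) → k := fun a =>
    det3 (g a (Pi.single 0 1)) (g a (Pi.single 1 1)) (g a (Pi.single 2 1))
  let Y : Fin 6 → Fin 3 → k := fun i s => eval (pt s) (y i)
  let Z : Fin 6 → Fin 3 → k := fun i s => eval (pt s) (z i)
  have h2 : ∀ i j l, PP (mat c) y z i j l =
      δ (e i + e j + e l) * (Y l 0 * Y l 1 * Y l 2 * E (Y i) (Z i) (Y j) (Z j)) := by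
    intro i j l
    rw [PP, ← hg _ _ (mul_mem (mul_mem (hy i) (hy j)) (hy l)),
      ← hg _ _ (mul_mem (mul_mem (hz i) (hy j)) (hy l)),
      ← hg _ _ (mul_mem (mul_mem (hy i) (hz j)) (hy l)), det3_lin, ← det3_triple]
    congr 2 <;> funext s <;> simp [ev3_apply, Y, Z]
  have h3 : ∀ i j l : Fin 6, δ (e i + e j + e l) = δ (e i + e l + e j) := by
    intro i j l
    rw [add_right_comm]
  simp only [Idn, h2]
  rw [h3 1 3 2, h3 0 3 2, h3 1 5 4, h3 2 5 4, h3 0 5 4, h3 3 5 4]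
  have p12 := pluecker (Y 1) (Z 1) (Y 2) (Z 2) (Y 4) (Z 4) (Y 5) (Z 5)
  have p13 := pluecker (Y 1) (Z 1) (Y 3) (Z 3) (Y 4) (Z 4) (Y 5) (Z 5)
  have p02 := pluecker (Y 0) (Z 0) (Y 2) (Z 2) (Y 4) (Z 4) (Y 5) (Z 5)
  have p03 := pluecker (Y 0) (Z 0) (Y 3) (Z 3) (Y 4) (Z 4) (Y 5) (Z 5)
  have q : ∀ (d1 d2 y4 y5 a b a' b' u : k), a * b' - a' * b = u →
      d1 * (y5 * a) * (d2 * (y4 * b')) - d1 * (y4 * a') * (d2 * (y5 * b)) =
      d1 * d2 * y4 * y5 * u := by
    intro d1 d2 y4 y5 a b a' b' u h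
    rw [← h]; ring
  rw [q _ _ _ _ _ _ _ _ _ p12, q _ _ _ _ _ _ _ _ _ p13, q _ _ _ _ _ _ _ _ _ p02,
    q _ _ _ _ _ _ _ _ _ p03]
  ring

lemma PP_eq_zero (I : Ideal (S k 1 r)) (c : Var 1 3 r → k) (hc : Presents c I)
    (y z : Fin r → S k 1 r) (hy : ∀ i, y i ∈ piece k 1 r (e i))
    (hz : ∀ i, z i ∈ piece k 1 r (e i)) (i j l : Fin r)
    (h : ∀ g ∈ piece k 1 r (e i + e l), g * z j ∈ I) : PP (mat c) y z i j l = 0 := by
  have h1 : mat c (y i * z j * y l) = 0 := by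
    rw [← hc _ _ (mul_mem (mul_mem (hy i) (hz j)) (hy l)), mul_right_comm]
    exact h _ (mul_mem (hy i) (hy l))
  simp [PP, det3, h1]

lemma exists_compl (i : Fin r) (α β : k) (h : α ≠ 0 ∨ β ≠ 0) :
    ∃ y ∈ piece k 1 r (e i), ∀ c : Fin 2, ∃ u v : k,
      (X (i, c) : S k 1 r) = u • y + v • lin i α β := by
  rcases h with h | h
  · refine ⟨X (i, 1), X_mem i 1, fun c => ?_⟩
    fin_cases c
    · refine ⟨-β / α, 1 / α, ?_⟩
      simp only [lin, smul_add, smul_smul]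
      have h1 : 1 / α * α = 1 := by field_simp
      have h2 : 1 / α * β = - (-β / α) := by field_simp
      rw [h1, h2]
      simp
    · exact ⟨1, 0, by simp⟩
  · refine ⟨X (i, 0), X_mem i 0, fun c => ?_⟩
    fin_cases c
    · exact ⟨1, 0, by simp⟩
    · refine ⟨-α / β, 1 / β, ?_⟩
      simp only [lin, smul_add, smul_smul]
      have h1 : 1 / β * β = 1 := by field_simp
      have h2 : 1 / β * α = - (-α / β) := by field_simp
      rw [h1, h2]
      simp

theorem PP_poly (I : Hilb k 1 3 r) (c : Var 1 3 r → k) (hc : Presents c I.1)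
    (y z : Fin r → S k 1 r) (hy : ∀ i, y i ∈ piece k 1 r (e i))
    (hz : ∀ i, z i ∈ piece k 1 r (e i))
    (hb : ∀ i (c : Fin 2), ∃ u v : k, (X (i, c) : S k 1 r) = u • y i + v • z i)
    (i j l : Fin r) (hij : i ≠ j) (hH : H 1 3 (e i + e j + e l) = 3)
    (h : ∀ g ∈ piece k 1 r (e i + e j), g * z l ∈ I.1) :
    ∃ W : MvPolynomial (Fin r) k, W ≠ 0 ∧
      ∀ s : Fin r → k, eval s W = PP (mat c) (fun x => y x + s x • z x) z i j l := by
  have hk : ∀ g ∈ piece k 1 r (e i + e j), mat c (g * z l) = 0 := fun g hg =>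
    (hc _ _ (mul_mem hg (hz l))).1 (h g hg)
  set w00 := mat c (y i * y j * y l) with h00
  set w10 := mat c (z i * y j * y l) with h10
  set w01 := mat c (y i * z j * y l) with h01
  set w11 := mat c (z i * z j * y l) with h11
  have hspan : ∀ x : Fin 3 → k, ∃ a b c e : k, x = a • w00 + b • w10 + c • w01 + e • w11 := by
    let T : Submodule k (Fin 3 → k) := Submodule.span k {w00, w10, w01, w11}
    have hT : ∀ x ∈ T, ∃ a b c e : k, x = a • w00 + b • w10 + c • w01 + e • w11 := by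
      intro x hx
      obtain ⟨a, x1, hx1, rfl⟩ := Submodule.mem_span_insert.1 hx
      obtain ⟨b, x2, hx2, rfl⟩ := Submodule.mem_span_insert.1 hx1
      obtain ⟨c, x3, hx3, rfl⟩ := Submodule.mem_span_insert.1 hx2
      obtain ⟨e, rfl⟩ := Submodule.mem_span_singleton.1 hx3
      exact ⟨a, b, c, e, by simp only [add_assoc]⟩
    have m00 : w00 ∈ T := Submodule.subset_span (by simp)
    have m10 : w10 ∈ T := Submodule.subset_span (by simp)
    have m01 : w01 ∈ T := Submodule.subset_span (by simp)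
    have m11 : w11 ∈ T := Submodule.subset_span (by simp)
    have hl : ∀ x, ∀ f ∈ piece k 1 r (e x), ∃ u v : k, f = u • y x + v • z x := by
      intro x f hf
      obtain ⟨α, β, rfl⟩ := piece_e x f hf
      obtain ⟨u0, v0, h0⟩ := hb x 0
      obtain ⟨u1, v1, h1⟩ := hb x 1
      refine ⟨α * u0 + β * u1, α * v0 + β * v1, ?_⟩
      rw [lin, h0, h1]
      module
    have t3 : ∀ f1 ∈ piece k 1 r (e i), ∀ f2 ∈ piece k 1 r (e j), ∀ f3 ∈ piece k 1 r (e l),
        mat c (f1 * f2 * f3) ∈ T := by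
      intro f1 h1 f2 h2 f3 h3
      obtain ⟨u3, v3, rfl⟩ := hl l f3 h3
      rw [mul_add, mul_smul_comm, mul_smul_comm, map_add, map_smul, map_smul,
        hk _ (mul_mem h1 h2), smul_zero, add_zero]
      apply T.smul_mem
      obtain ⟨u1, v1, rfl⟩ := hl i f1 h1
      obtain ⟨u2, v2, rfl⟩ := hl j f2 h2
      simp only [add_mul, mul_add, smul_mul_assoc, mul_smul_comm, map_add, map_smul]
      refine T.add_mem (T.smul_mem _ (T.add_mem (T.smul_mem _ m00) (T.smul_mem _ m10)))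
        (T.smul_mem _ (T.add_mem (T.smul_mem _ m01) (T.smul_mem _ m11)))
    have t2 : ∀ f ∈ piece k 1 r (e i + e j), ∀ f3 ∈ piece k 1 r (e l), mat c (f * f3) ∈ T := by
      intro f hf f3 h3
      obtain ⟨f0, h0, f1, h1, rfl⟩ := split_piece _ _ f hf
      rw [add_mul, map_add]
      exact T.add_mem (t3 _ h0 _ (X_mem j 0) _ h3) (t3 _ h1 _ (X_mem j 1) _ h3)
    have t1 : ∀ f ∈ piece k 1 r (e i + e j + e l), mat c f ∈ T := by
      intro f hf
      obtain ⟨f0, h0, f1, h1, rfl⟩ := split_piece _ _ f hf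
      rw [map_add]
      exact T.add_mem (t2 _ h0 _ (X_mem l 0)) (t2 _ h1 _ (X_mem l 1))
    intro x
    obtain ⟨f, hf, rfl⟩ := (surj_iff (by norm_num) I _ hH (mat c)
      (fun f hf => (hc _ f hf).1)).2 (fun f hf => (hc _ f hf).2) x
    exact hT _ (t1 f hf)
  refine ⟨_, quad_ne_zero i j hij _ _ _ _ (minor_ne_zero w00 w10 w01 w11 hspan), fun s => ?_⟩
  simp only [map_sub, map_add, map_mul, eval_C, eval_X]
  rw [← det3_shift, PP]
  have e1 : ∀ g ∈ piece k 1 r (e i + e j), mat c (g * (y l + s l • z l)) = mat c (g * y l) := by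
    intro g hg
    rw [mul_add, mul_smul_comm, map_add, map_smul, hk g hg, smul_zero, add_zero]
  have hy' : ∀ x, y x + s x • z x ∈ piece k 1 r (e x) := fun x =>
    Submodule.add_mem _ (hy x) (Submodule.smul_mem _ _ (hz x))
  rw [e1 _ (mul_mem (hy' i) (hy' j)), e1 _ (mul_mem (hz i) (hy' j)), e1 _ (mul_mem (hy' i) (hz j))]
  congr 1 <;> funext x <;>
    simp only [h00, h10, h01, h11, add_mul, mul_add, smul_mul_assoc, mul_smul_comm, map_add,
      map_smul, Pi.add_apply, Pi.smul_apply, smul_eq_mul] <;> ring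

/-- the closed set -/
def FF (I : Ideal (S k 1 6)) : Prop :=
  Kill I 5 {e 0 + e 4, e 1 + e 4} ∧ Kill I 4 {e 2 + e 5, e 3 + e 5} ∧
    Kill I 3 {e 0 + e 2, e 0 + e 2} ∧ Kill I 2 {e 1 + e 3, e 1 + e 3}

theorem not_mem_slip [Infinite k] (I : Hilb k 1 3 6) (hI : FF I.1) : I ∉ Slip k 1 3 6 := by
  classical
  obtain ⟨⟨a5, b5, n5, k5⟩, ⟨a4, b4, n4, k4⟩, ⟨a3, b3, n3, k3⟩, ⟨a2, b2, n2, k2⟩⟩ := hI
  obtain ⟨c, hc⟩ := exists_presents (by norm_num) I
  let α : Fin 6 → k := ![1, 1, a2, a3, a4, a5]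
  let β : Fin 6 → k := ![0, 0, b2, b3, b4, b5]
  have hn : ∀ i, α i ≠ 0 ∨ β i ≠ 0 := by
    intro i
    fin_cases i
    · exact Or.inl one_ne_zero
    · exact Or.inl one_ne_zero
    · exact n2
    · exact n3
    · exact n4
    · exact n5
  let z : Fin 6 → S k 1 6 := fun i => lin i (α i) (β i)
  have hz : ∀ i, z i ∈ piece k 1 6 (e i) := fun i => lin_mem _ _ _
  choose y hy hb using fun i => exists_compl i (α i) (β i) (hn i)
  have k04 : ∀ g ∈ piece k 1 6 (e 0 + e 4), g * z 5 ∈ I.1 := k5 _ (by simp)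
  have k14 : ∀ g ∈ piece k 1 6 (e 1 + e 4), g * z 5 ∈ I.1 := k5 _ (by simp)
  have k25 : ∀ g ∈ piece k 1 6 (e 2 + e 5), g * z 4 ∈ I.1 := k4 _ (by simp)
  have k35 : ∀ g ∈ piece k 1 6 (e 3 + e 5), g * z 4 ∈ I.1 := k4 _ (by simp)
  have k02 : ∀ g ∈ piece k 1 6 (e 0 + e 2), g * z 3 ∈ I.1 := k3 _ (by simp)
  have k13 : ∀ g ∈ piece k 1 6 (e 1 + e 3), g * z 2 ∈ I.1 := k2 _ (by simp)
  obtain ⟨W04, n04, v04⟩ := PP_poly I c hc y z hy hz hb 0 4 5 (by decide) (by decide) k04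
  obtain ⟨W14, n14, v14⟩ := PP_poly I c hc y z hy hz hb 1 4 5 (by decide) (by decide) k14
  obtain ⟨W25, n25, v25⟩ := PP_poly I c hc y z hy hz hb 2 5 4 (by decide) (by decide) k25
  obtain ⟨W35, n35, v35⟩ := PP_poly I c hc y z hy hz hb 3 5 4 (by decide) (by decide) k35
  obtain ⟨W02, n02, v02⟩ := PP_poly I c hc y z hy hz hb 0 2 3 (by decide) (by decide) k02
  obtain ⟨W13, n13, v13⟩ := PP_poly I c hc y z hy hz hb 1 3 2 (by decide) (by decide) k13
  obtain ⟨s, hs⟩ : ∃ s : Fin 6 → k, eval s (W13 * W02 * (W14 * W25) * (W04 * W35)) ≠ 0 := by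
    by_contra hcon
    push Not at hcon
    have : W13 * W02 * (W14 * W25) * (W04 * W35) = 0 :=
      MvPolynomial.funext fun s => by rw [hcon s, map_zero]
    simp [n04, n14, n25, n35, n02, n13] at this
  simp only [map_mul, v04, v14, v25, v35, v02, v13] at hs
  set y' : Fin 6 → S k 1 6 := fun x => y x + s x • z x with hy'def
  have hy' : ∀ x, y' x ∈ piece k 1 6 (e x) := fun x =>
    Submodule.add_mem _ (hy x) (Submodule.smul_mem _ _ (hz x))
  have hne : Idn (mat c) y' z ≠ 0 := by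
    rw [Idn, PP_eq_zero I.1 c hc y' z hy' hz 1 5 4 k14, PP_eq_zero I.1 c hc y' z hy' hz 0 5 4 k04,
      PP_eq_zero I.1 c hc y' z hy' hz 1 2 3 k13]
    simpa using hs
  let F : MvPolynomial (Var 1 3 6) k := Idn (fun f j => P j f) y' z
  have hF : ∀ c' : Var 1 3 6 → k, eval c' F = Idn (mat c') y' z := by
    intro c'
    rw [map_Idn]
    congr 1
    funext f j
    exact eval_P c' f j
  intro hmem
  obtain ⟨I', ⟨c', hc', hF'⟩, Γ, hΓ, hI'⟩ := mem_closure_iff.1 hmem _ (isOpen_exists F)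
    ⟨c, hc, by rwa [hF]⟩
  apply hF'
  rw [hF]
  obtain ⟨g0, g1, g2, -, -, -, rfl⟩ := Finset.card_eq_three.1 hΓ
  refine Idn_eq_zero I'.1 c' hc' (fun s p => (![g0, g1, g2] s p.1).rep p.2) ?_ y' z hy' hz
  intro a f hf h
  rw [hI']
  refine Ideal.subset_span ⟨⟨a, hf⟩, fun γ hγ => ?_⟩
  simp only [Finset.coe_insert, Finset.coe_singleton, Set.mem_insert_iff,
    Set.mem_singleton_iff] at hγ
  rcases hγ with rfl | rfl | rfl
  · exact h 0
  · exact h 1
  · exact h 2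

end Pool.Agent.H445Z.MH
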