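import Pool.Agent.H445Z.MHDefs

open MvPolynomial

namespace Pool.Agent.H445Z.MH

variable {k : Type*} [Field k] {n d r : ℕ}

lemma mat_monomial (c : Var n d r → k) (m) (a : k) (j : Fin d) :
    mat c (monomial m a) j = a * c (m, j) := by
  have h : (monomial m a : S k n r) = a • basisMonomials (Fin r × Fin (n + 1)) k m := by
    simp [smul_monomial]
  rw [h, map_smul, mat, Module.Basis.constr_basis]
  simp

/-- the universal matrix entries -/
noncomputable def P (j : Fin d) : S k n r →ₗ[k] MvPolynomial (Var n d r) k :=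
  (basisMonomials (Fin r × Fin (n + 1)) k).constr k fun m => X (m, j)

lemma eval_P (c : Var n d r → k) (f : S k n r) (j : Fin d) : eval c (P j f) = mat c f j := by
  induction f using MvPolynomial.induction_on' with
  | monomial m a =>
    have h : (monomial m a : S k n r) = a • basisMonomials (Fin r × Fin (n + 1)) k m := by
      simp [smul_monomial]
    rw [mat_monomial, h, map_smul, P, Module.Basis.constr_basis]
    simp [smul_eq_C_mul]
  | add p q hp hq => simp [hp, hq]

/-- coordinates from a family of linear maps -/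
noncomputable def ofMaps (φ : (Fin r → ℕ) → S k n r →ₗ[k] (Fin d → k)) : Var n d r → k :=
  fun v => φ (Finsupp.weight (deg n r) v.1) (monomial v.1 1) v.2

lemma mat_ofMaps (φ : (Fin r → ℕ) → S k n r →ₗ[k] (Fin d → k)) (a : Fin r → ℕ) (f : S k n r)
    (hf : f ∈ piece k n r a) : mat (ofMaps φ) f = φ a f := by
  have hf' : IsWeightedHomogeneous (deg n r) f a := hf
  induction hf' using IsWeightedHomogeneous.induction_on with
  | zero => simp
  | add p q hp hq h1 h2 => rw [map_add, map_add, h1 hp, h2 hq]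
  | monomial m s hm =>
    funext j
    rw [mat_monomial, ofMaps]
    simp only [hm]
    have h : (monomial m s : S k n r) = s • monomial m 1 := by simp [smul_monomial]
    rw [h, map_smul]
    simp

lemma exists_equiv_of_ker {V W : Type*} [AddCommGroup V] [Module k V] [AddCommGroup W]
    [Module k W] [FiniteDimensional k W] (φ ψ : V →ₗ[k] W) (h : LinearMap.ker φ = LinearMap.ker ψ) :
    ∃ g : W ≃ₗ[k] W, ∀ v, g (φ v) = ψ v := by
  let e : LinearMap.range φ ≃ₗ[k] LinearMap.range ψ :=
    (φ.quotKerEquivRange.symm.trans (Submodule.quotEquivOfEq _ _ h)).trans ψ.quotKerEquivRange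
  obtain ⟨g, hg⟩ := Submodule.exists_linearEquiv_restrict_eq e
  refine ⟨g, fun v => ?_⟩
  have h1 := hg ⟨φ v, LinearMap.mem_range_self φ v⟩
  rw [← h1]
  have h2 : φ.quotKerEquivRange.symm ⟨φ v, LinearMap.mem_range_self φ v⟩ =
      Submodule.Quotient.mk v := by
    rw [LinearEquiv.symm_apply_eq]
    ext
    simp
  simp [e, h2]

lemma isOpen_framed (F : MvPolynomial (Var n d r) k) :
    IsOpen {q : Framed k n d r | eval q.1.2 F ≠ 0} := by
  refine isOpen_induced_iff.2 ⟨PrimeSpectrum.basicOpen F, (PrimeSpectrum.basicOpen F).isOpen, ?_⟩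
  ext q
  simp only [Set.mem_preimage, SetLike.mem_coe, PrimeSpectrum.mem_basicOpen, pointToPoint,
    mem_vanishingIdeal_singleton_iff, Set.mem_ofPred_eq]
  rfl

theorem isOpen_exists (F : MvPolynomial (Var n d r) k) :
    IsOpen {I : Hilb k n d r | ∃ c, Presents c I.1 ∧ eval c F ≠ 0} := by
  rw [isOpen_coinduced, isOpen_iff_forall_mem_open]
  rintro p ⟨c, hc, hF⟩
  have hg : ∀ a, ∃ g : (Fin d → k) ≃ₗ[k] (Fin d → k), ∀ f ∈ piece k n r a,
      g (mat p.1.2 f) = mat c f := by
    intro a
    obtain ⟨g, hg⟩ := exists_equiv_of_ker ((mat p.1.2).comp (piece k n r a).subtype)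
      ((mat c).comp (piece k n r a).subtype) (by
        ext ⟨f, hf⟩
        simp only [LinearMap.mem_ker, LinearMap.comp_apply, Submodule.subtype_apply]
        rw [← p.2 a f hf, ← hc a f hf])
    exact ⟨g, fun f hf => hg ⟨f, hf⟩⟩
  choose g hg using hg
  let act : (Var n d r → k) → (Var n d r → k) := fun c' =>
    ofMaps fun a => (g a).toLinearMap.comp (mat c')
  let sub : Var n d r → MvPolynomial (Var n d r) k := fun v =>
    ∑ j, C (g (Finsupp.weight (deg n r) v.1) (Pi.single j 1) v.2) * X (v.1, j)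
  have hsub : ∀ c' v, eval c' (sub v) = act c' v := by
    intro c' v
    have h1 : mat c' (monomial v.1 1) = ∑ j, c' (v.1, j) • (Pi.single j 1 : Fin d → k) := by
      funext i
      rw [mat_monomial]
      simp [Finset.sum_apply, Pi.single_apply]
    simp only [sub, act, ofMaps, LinearMap.comp_apply, LinearEquiv.coe_coe, h1, map_sum, map_mul,
      eval_C, eval_X, map_smul, Finset.sum_apply, Pi.smul_apply, smul_eq_mul]
    exact Finset.sum_congr rfl fun j _ => mul_comm _ _
  have hev : ∀ c', eval c' (bind₁ sub F) = eval (act c') F := by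
    intro c'
    have : eval c' (bind₁ sub F) = eval (fun v => eval c' (sub v)) F := by
      exact eval₂Hom_bind₁ (RingHom.id k) c' sub F
    rw [this]
    congr 2
    funext v
    exact hsub c' v
  refine ⟨{q : Framed k n d r | eval q.1.2 (bind₁ sub F) ≠ 0}, ?_, isOpen_framed _, ?_⟩
  · intro q hq
    refine ⟨act q.1.2, ?_, by rwa [← hev]⟩
    intro a f hf
    rw [mat_ofMaps _ a f hf, q.2 a f hf]
    simp
  · change eval p.1.2 (bind₁ sub F) ≠ 0
    rw [hev]
    have : act p.1.2 = c := by
      funext v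
      simp only [act, ofMaps, LinearMap.comp_apply, LinearEquiv.coe_coe]
      rw [hg _ _ (isWeightedHomogeneous_monomial _ _ _ rfl), mat_monomial, one_mul]
    rwa [this]

lemma H_le (a : Fin r → ℕ) : H n d a ≤ d := min_le_left _ _

lemma H_pos (hd : 0 < d) (a : Fin r → ℕ) : 0 < H n d a := by
  refine lt_min hd (Finset.prod_pos fun i _ => Nat.choose_pos (Nat.le_add_right _ _))

theorem exists_presents (hd : 0 < d) (I : Hilb k n d r) : ∃ c : Var n d r → k, Presents c I.1 := by
  have h : ∀ a, ∃ φ : S k n r →ₗ[k] (Fin d → k), ∀ f ∈ piece k n r a, (f ∈ I.1 ↔ φ f = 0) := by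
    intro a
    have h1 := I.2.2 a
    have hfin : Module.Finite k
        (piece k n r a ⧸ (I.1.restrictScalars k).comap (piece k n r a).subtype) :=
      Module.finite_of_finrank_pos (by rw [h1]; exact H_pos hd a)
    obtain ⟨ι, hι⟩ : ∃ ι : (piece k n r a ⧸ (I.1.restrictScalars k).comap
        (piece k n r a).subtype) →ₗ[k] (Fin d → k), Function.Injective ι := by
      have h2 : Module.finrank k (piece k n r a ⧸ (I.1.restrictScalars k).comap
        (piece k n r a).subtype) ≤ Module.finrank k (Fin d → k) := by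
        rw [h1]; simpa using H_le a
      exact finrank_le_iff_exists_linearMap.1 h2
    obtain ⟨φ, hφ⟩ := LinearMap.exists_extend (ι.comp (Submodule.mkQ _))
    refine ⟨φ, fun f hf => ?_⟩
    have h3 : φ f = ι (Submodule.Quotient.mk ⟨f, hf⟩) := congrArg (fun L => L ⟨f, hf⟩) hφ
    rw [h3, map_eq_zero_iff ι hι, Submodule.Quotient.mk_eq_zero]
    rfl
  choose φ hφ using h
  exact ⟨ofMaps φ, fun a f hf => by rw [mat_ofMaps φ a f hf]; exact hφ a f hf⟩

/-- a linear map to `k^d` killing `I_a`, where `H a = d`, is onto iff its kernel is `I_a` -/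
theorem surj_iff (hd : 0 < d) (I : Hilb k n d r) (a : Fin r → ℕ) (ha : H n d a = d)
    (φ : S k n r →ₗ[k] (Fin d → k)) (h0 : ∀ f ∈ piece k n r a, f ∈ I.1 → φ f = 0) :
    (∀ w, ∃ f ∈ piece k n r a, φ f = w) ↔ (∀ f ∈ piece k n r a, φ f = 0 → f ∈ I.1) := by
  have h1 := I.2.2 a
  have hfin : Module.Finite k
      (piece k n r a ⧸ (I.1.restrictScalars k).comap (piece k n r a).subtype) :=
    Module.finite_of_finrank_pos (by rw [h1]; exact H_pos hd a)
  let ψ : (piece k n r a ⧸ (I.1.restrictScalars k).comap (piece k n r a).subtype) →ₗ[k]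
      (Fin d → k) := Submodule.liftQ _ (φ.comp (piece k n r a).subtype) (by
        rintro ⟨f, hf⟩ h
        exact h0 f hf h)
  have h2 := LinearMap.injective_iff_surjective_of_finrank_eq_finrank (f := ψ)
    (by rw [h1, ha]; simp)
  constructor
  · intro hs f hf hz
    have h3 : Function.Injective ψ := h2.2 fun w => by
      obtain ⟨g, hg, rfl⟩ := hs w
      exact ⟨Submodule.Quotient.mk ⟨g, hg⟩, rfl⟩
    have h4 : (Submodule.Quotient.mk ⟨f, hf⟩ : piece k n r a ⧸ (I.1.restrictScalars k).comap
        (piece k n r a).subtype) = 0 := h3 (by rw [map_zero]; exact hz)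
    rw [Submodule.Quotient.mk_eq_zero] at h4
    exact h4
  · intro hi w
    have h3 : Function.Injective ψ := by
      rw [injective_iff_map_eq_zero]
      intro x hx
      obtain ⟨⟨f, hf⟩, rfl⟩ := Submodule.Quotient.mk_surjective _ x
      exact (Submodule.Quotient.mk_eq_zero _).2 (hi f hf hx)
    obtain ⟨x, rfl⟩ := h2.1 h3 w
    obtain ⟨⟨f, hf⟩, rfl⟩ := Submodule.Quotient.mk_surjective _ x
    exact ⟨f, hf, rfl⟩

end Pool.Agent.H445Z.MH
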